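import Mathlib

set_option autoImplicit false

namespace Pool.Agent.TD5

open Finset

variable {ι V : Type*} [DecidableEq ι] [DecidableEq V] (e : ι → Finset V)

/-- The vertices covered by a set of edges. -/
def cols (W : Finset ι) : Finset V := W.biUnion e

/-- The edges of `W` containing a vertex. -/
def rho (W : Finset ι) (x : V) : Finset ι := W.filter (fun i => x ∈ e i)

/-- `D` meets all edges of `W`. -/
def Hits (D : Finset V) (W : Finset ι) : Prop := ∀ i ∈ W, ∃ x ∈ D, x ∈ e i

/-- The transversal number of a set of edges. -/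
noncomputable def tau (W : Finset ι) : ℕ := sInf {k | ∃ D : Finset V, Hits e D W ∧ D.card = k}

variable {e}

theorem mem_cols {W : Finset ι} {x : V} : x ∈ cols e W ↔ ∃ i ∈ W, x ∈ e i := by simp [cols]

theorem mem_rho {W : Finset ι} {x : V} {i : ι} : i ∈ rho e W x ↔ i ∈ W ∧ x ∈ e i := by
  simp [rho]

theorem rho_mono {W W' : Finset ι} (h : W ⊆ W') (x : V) : rho e W x ⊆ rho e W' x := by
  intro i hi
  rw [mem_rho] at hi ⊢
  exact ⟨h hi.1, hi.2⟩

theorem rho_sub (W : Finset ι) (x : V) : rho e W x ⊆ W := filter_subset _ _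

theorem cols_mono {W W' : Finset ι} (h : W ⊆ W') : cols e W ⊆ cols e W' :=
  biUnion_subset_biUnion_of_subset_left _ h

theorem cols_union (W W' : Finset ι) : cols e (W ∪ W') = cols e W ∪ cols e W' := by
  ext x
  rw [mem_union, mem_cols, mem_cols, mem_cols]
  constructor
  · rintro ⟨i, hi, hx⟩
    rcases mem_union.1 hi with h | h
    · exact Or.inl ⟨i, h, hx⟩
    · exact Or.inr ⟨i, h, hx⟩
  · rintro (⟨i, hi, hx⟩ | ⟨i, hi, hx⟩)
    · exact ⟨i, mem_union_left _ hi, hx⟩
    · exact ⟨i, mem_union_right _ hi, hx⟩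

theorem cols_singleton (i : ι) : cols e {i} = e i := by simp [cols]

theorem sub_cols {W : Finset ι} {i : ι} (hi : i ∈ W) : e i ⊆ cols e W :=
  fun _ hx => mem_cols.2 ⟨i, hi, hx⟩

theorem hits_cols (hne : ∀ i, (e i).Nonempty) (W : Finset ι) : Hits e (cols e W) W := by
  intro i hi
  obtain ⟨x, hx⟩ := hne i
  exact ⟨x, sub_cols hi hx, hx⟩

theorem tau_spec (hne : ∀ i, (e i).Nonempty) (W : Finset ι) :
    ∃ D : Finset V, Hits e D W ∧ D.card = tau e W :=
  Nat.sInf_mem (s := {k | ∃ D : Finset V, Hits e D W ∧ D.card = k})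
    ⟨(cols e W).card, cols e W, hits_cols hne W, rfl⟩

theorem tau_le {W : Finset ι} {D : Finset V} (h : Hits e D W) : tau e W ≤ D.card :=
  Nat.sInf_le ⟨D, h, rfl⟩

theorem tau_union (hne : ∀ i, (e i).Nonempty) (W W' : Finset ι) :
    tau e (W ∪ W') ≤ tau e W + tau e W' := by
  obtain ⟨D, hD, h1⟩ := tau_spec hne W
  obtain ⟨D', hD', h2⟩ := tau_spec hne W'
  have h3 : Hits e (D ∪ D') (W ∪ W') := by
    intro i hi
    rcases mem_union.1 hi with h | h
    · obtain ⟨x, hx, hxi⟩ := hD i h
      exact ⟨x, mem_union_left _ hx, hxi⟩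
    · obtain ⟨x, hx, hxi⟩ := hD' i h
      exact ⟨x, mem_union_right _ hx, hxi⟩
  have := tau_le h3
  have := card_union_le D D'
  omega

theorem tau_mono (hne : ∀ i, (e i).Nonempty) {W W' : Finset ι} (h : W ⊆ W') :
    tau e W ≤ tau e W' := by
  obtain ⟨D', hD', h2⟩ := tau_spec hne W'
  rw [← h2]
  exact tau_le (fun i hi => hD' i (h hi))

theorem tau_le_one {W : Finset ι} (x : V) (h : ∀ i ∈ W, x ∈ e i) : tau e W ≤ 1 := by
  have : Hits e {x} W := fun i hi => ⟨x, mem_singleton_self x, h i hi⟩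
  simpa using tau_le this

theorem tau_empty : tau e ∅ = 0 := by
  have : Hits e ∅ ∅ := fun i hi => absurd hi (notMem_empty i)
  simpa using tau_le this

theorem tau_singleton (hne : ∀ i, (e i).Nonempty) (i : ι) : tau e {i} ≤ 1 := by
  obtain ⟨x, hx⟩ := hne i
  exact tau_le_one x (fun j hj => by rw [mem_singleton.1 hj]; exact hx)

/-- `W` is covered by a union of sets. -/
theorem tau_le_of_subset (hne : ∀ i, (e i).Nonempty) {W X Y : Finset ι} (h : W ⊆ X ∪ Y) :
    tau e W ≤ tau e X + tau e Y := (tau_mono hne h).trans (tau_union hne X Y)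

theorem tau_biUnion (hne : ∀ i, (e i).Nonempty) {κ : Type*} [DecidableEq κ] (s : Finset κ)
    (f : κ → Finset ι) : tau e (s.biUnion f) ≤ ∑ k ∈ s, tau e (f k) := by
  induction s using Finset.induction_on with
  | empty => simp [tau_empty]
  | insert a s ha ih =>
    rw [biUnion_insert, sum_insert ha]
    exact (tau_union hne _ _).trans (Nat.add_le_add_left ih _)

/-! ### Counting -/

theorem sum_card (W : Finset ι) :
    ∑ i ∈ W, (e i).card = ∑ x ∈ cols e W, (rho e W x).card := by
  have h := sum_card_bipartiteAbove_eq_sum_card_bipartiteBelow (s := W) (t := cols e W)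
    (fun i x => x ∈ e i)
  have h1 : ∀ i ∈ W, (bipartiteAbove (fun i x => x ∈ e i) (cols e W) i).card = (e i).card := by
    intro i hi
    congr 1
    ext x
    rw [mem_bipartiteAbove]
    exact ⟨fun h => h.2, fun h => ⟨sub_cols hi h, h⟩⟩
  rw [sum_congr rfl h1] at h
  exact h

theorem four_mul (h4 : ∀ i, 4 ≤ (e i).card) (W : Finset ι) :
    4 * W.card ≤ ∑ x ∈ cols e W, (rho e W x).card := by
  rw [← sum_card, mul_comm, ← smul_eq_mul]
  exact card_nsmul_le_sum _ _ _ (fun i _ => h4 i)

/-- Counting with a set `S` of vertices of degree at most `k`. -/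
theorem count_def (h4 : ∀ i, 4 ≤ (e i).card) {W : Finset ι} {k : ℕ}
    (hk : ∀ x, (rho e W x).card ≤ k + 1) {S : Finset V} (hS : S ⊆ cols e W)
    (hSk : ∀ x ∈ S, (rho e W x).card ≤ k) :
    4 * W.card + S.card ≤ (k + 1) * (cols e W).card := by
  have h1 := four_mul h4 W
  have h2 : ∑ x ∈ cols e W, (rho e W x).card + S.card ≤ (k + 1) * (cols e W).card := by
    rw [← sum_sdiff hS]
    have a1 : ∑ x ∈ cols e W \ S, (rho e W x).card ≤ (cols e W \ S).card * (k + 1) := by
      rw [← smul_eq_mul]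
      exact sum_le_card_nsmul _ _ _ (fun x _ => hk x)
    have a2 : ∑ x ∈ S, (rho e W x).card ≤ S.card * k := by
      rw [← smul_eq_mul]
      exact sum_le_card_nsmul _ _ _ (fun x hx => hSk x hx)
    have a3 := card_sdiff_add_card_eq_card hS
    have a4 : (k + 1) * (cols e W).card = (cols e W \ S).card * (k + 1) + S.card * (k + 1) := by
      rw [← a3]
      ring
    have a5 : S.card * (k + 1) = S.card * k + S.card := by ring
    omega
  omega

theorem count (h4 : ∀ i, 4 ≤ (e i).card) {W : Finset ι} {k : ℕ}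
    (hk : ∀ x, (rho e W x).card ≤ k + 1) : 4 * W.card ≤ (k + 1) * (cols e W).card := by
  have := count_def h4 hk (S := ∅) (empty_subset _) (by simp)
  simpa using this

/-! ### Separation -/

/-- The sets of edges `P` and `Q` have no common vertex. -/
def Sep (e : ι → Finset V) (P Q : Finset ι) : Prop := Disjoint (cols e P) (cols e Q)

theorem sep_iff {P Q : Finset ι} : Sep e P Q ↔ ∀ i ∈ P, ∀ j ∈ Q, Disjoint (e i) (e j) := by
  constructor
  · intro h i hi j hj
    exact disjoint_of_subset_left (sub_cols hi) (disjoint_of_subset_right (sub_cols hj) h)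
  · intro h
    refine disjoint_left.2 ?_
    intro x hx hx'
    obtain ⟨i, hi, hxi⟩ := mem_cols.1 hx
    obtain ⟨j, hj, hxj⟩ := mem_cols.1 hx'
    exact disjoint_left.1 (h i hi j hj) hxi hxj

theorem Sep.symm {P Q : Finset ι} (h : Sep e P Q) : Sep e Q P := Disjoint.symm h

theorem Sep.mono {P Q P' Q' : Finset ι} (h : Sep e P Q) (hP : P' ⊆ P) (hQ : Q' ⊆ Q) :
    Sep e P' Q' :=
  disjoint_of_subset_left (cols_mono hP) (disjoint_of_subset_right (cols_mono hQ) h)

theorem Sep.disj (hne : ∀ i, (e i).Nonempty) {P Q : Finset ι} (h : Sep e P Q) :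
    Disjoint P Q := by
  refine disjoint_left.2 ?_
  intro i hi hi'
  obtain ⟨x, hx⟩ := hne i
  exact disjoint_left.1 (sep_iff.1 h i hi i hi') hx hx

theorem Sep.union_left {P P' Q : Finset ι} (h : Sep e P Q) (h' : Sep e P' Q) :
    Sep e (P ∪ P') Q := by
  unfold Sep at *
  rw [cols_union]
  exact disjoint_union_left.2 ⟨h, h'⟩

theorem Sep.union_right {P Q Q' : Finset ι} (h : Sep e P Q) (h' : Sep e P Q') :
    Sep e P (Q ∪ Q') := (h.symm.union_left h'.symm).symm

theorem Sep.card_cols {P Q : Finset ι} (h : Sep e P Q) :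
    (cols e (P ∪ Q)).card = (cols e P).card + (cols e Q).card := by
  rw [cols_union]
  exact card_union_of_disjoint h

theorem not_sep {P Q : Finset ι} (h : ¬ Sep e P Q) : ∃ x, ∃ i ∈ P, ∃ j ∈ Q, x ∈ e i ∧ x ∈ e j := by
  unfold Sep at h
  rw [not_disjoint_iff] at h
  obtain ⟨x, hx, hx'⟩ := h
  obtain ⟨i, hi, hxi⟩ := mem_cols.1 hx
  obtain ⟨j, hj, hxj⟩ := mem_cols.1 hx'
  exact ⟨x, i, hi, j, hj, hxi, hxj⟩

/-! ### Double triangles -/

/-- Three edges of size four, any two of which share exactly two vertices, with no vertex in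
all three. -/
def Doubled (e : ι → Finset V) (a b c : ι) : Prop :=
  (e a).card = 4 ∧ (e b).card = 4 ∧ (e c).card = 4 ∧ (e a ∩ e b).card = 2 ∧
    (e a ∩ e c).card = 2 ∧ (e b ∩ e c).card = 2 ∧ e a ∩ e b ∩ e c = ∅

/-- A family of double triangles inside `W` without common vertices. -/
def Pack (e : ι → Finset V) (W : Finset ι) (F : Finset (Finset ι)) : Prop :=
  (∀ T ∈ F, T ⊆ W ∧ ∃ a b c, T = {a, b, c} ∧ Doubled e a b c) ∧
    ∀ T ∈ F, ∀ T' ∈ F, T ≠ T' → Sep e T T'

/-- The largest number of double triangles inside `W` without common vertices. -/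
noncomputable def nu (e : ι → Finset V) (W : Finset ι) : ℕ := by
  classical
  exact ((W.powerset.powerset).filter (fun F => Pack e W F)).sup card

theorem nu_spec (W : Finset ι) : ∃ F, Pack e W F ∧ F.card = nu e W := by
  classical
  have hne : ((W.powerset.powerset).filter (fun F => Pack e W F)).Nonempty :=
    ⟨∅, by rw [mem_filter]; exact ⟨by simp, by simp [Pack]⟩⟩
  obtain ⟨F, hF, h⟩ := exists_mem_eq_sup _ hne (card : Finset (Finset ι) → ℕ)
  exact ⟨F, (mem_filter.1 hF).2, h.symm⟩

theorem le_nu {W : Finset ι} {F : Finset (Finset ι)} (h : Pack e W F) : F.card ≤ nu e W := by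
  classical
  have : F ∈ (W.powerset.powerset).filter (fun F => Pack e W F) := by
    rw [mem_filter, mem_powerset]
    exact ⟨fun T hT => mem_powerset.2 (h.1 T hT).1, h⟩
  exact le_sup (f := card) this

theorem Pack.mono {W W' : Finset ι} {F : Finset (Finset ι)} (h : Pack e W F) (hW : W ⊆ W') :
    Pack e W' F := ⟨fun T hT => ⟨(h.1 T hT).1.trans hW, (h.1 T hT).2⟩, h.2⟩

theorem nu_mono {W W' : Finset ι} (h : W ⊆ W') : nu e W ≤ nu e W' := by
  obtain ⟨F, hF, h1⟩ := nu_spec (e := e) W
  rw [← h1]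
  exact le_nu (hF.mono h)

theorem nu_add (hne : ∀ i, (e i).Nonempty) {W W' : Finset ι} (h : Sep e W W') :
    nu e W + nu e W' ≤ nu e (W ∪ W') := by
  obtain ⟨F, hF, h1⟩ := nu_spec (e := e) W
  obtain ⟨F', hF', h2⟩ := nu_spec (e := e) W'
  have hd : Disjoint F F' := by
    refine disjoint_left.2 ?_
    intro T hT hT'
    obtain ⟨hs, a, b, c, rfl, -⟩ := hF.1 T hT
    obtain ⟨hs', -⟩ := hF'.1 _ hT'
    exact disjoint_left.1 (h.disj hne) (hs (mem_insert_self a _)) (hs' (mem_insert_self a _))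
  rw [← h1, ← h2, ← card_union_of_disjoint hd]
  apply le_nu
  have hP := hF.mono (subset_union_left (s₁ := W) (s₂ := W'))
  have hP' := hF'.mono (subset_union_right (s₁ := W) (s₂ := W'))
  refine ⟨?_, ?_⟩
  · intro T hT
    rcases mem_union.1 hT with hT | hT
    · exact hP.1 T hT
    · exact hP'.1 T hT
  · intro T hT T' hT' hne'
    rcases mem_union.1 hT with hT | hT <;> rcases mem_union.1 hT' with hT' | hT'
    · exact hP.2 T hT T' hT' hne'
    · exact h.mono (hF.1 T hT).1 (hF'.1 T' hT').1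
    · exact h.symm.mono (hF'.1 T hT).1 (hF.1 T' hT').1
    · exact hP'.2 T hT T' hT' hne'

theorem nu_pos {W : Finset ι} {a b c : ι} (ha : a ∈ W) (hb : b ∈ W) (hc : c ∈ W)
    (h : Doubled e a b c) : 1 ≤ nu e W := by
  have : Pack e W {{a, b, c}} := by
    refine ⟨?_, ?_⟩
    · intro T hT
      rw [mem_singleton.1 hT]
      refine ⟨?_, a, b, c, rfl, h⟩
      intro i hi
      simp only [mem_insert, mem_singleton] at hi
      rcases hi with rfl | rfl | rfl <;> assumption
    · intro T hT T' hT' hne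
      rw [mem_singleton.1 hT, mem_singleton.1 hT'] at hne
      exact absurd rfl hne
  simpa using le_nu this

end Pool.Agent.TD5
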