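import Pool.Agent.TD5.Sides

set_option autoImplicit false

namespace Pool.Agent.TD5

open Finset

variable {ι V : Type*} [DecidableEq ι] [DecidableEq V] {e : ι → Finset V} {W : Finset ι}

theorem Dec.rest_empty (h : Ctx e W) {v : V} {l : ι} {P : Finset ι} (hd : Dec e W v {l} P) :
    (e l).card = 4 ∧ (W \ rho e W v) \ ({l} ∪ P) = ∅ := by
  have h1 := hd.s1.val_le
  have h2 := h.h4 l
  have h3 := hd.bound
  have h4 := hd.s2.le_val
  rw [card_singleton, cols_singleton] at h1 h3
  have hl : (e l).card = 4 := by omega
  refine ⟨hl, ?_⟩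
  set Y := (W \ rho e W v) \ ({l} ∪ P) with hY
  have hYR : Y ⊆ W \ rho e W v := sdiff_subset
  have hYW : Y ⊆ W := hYR.trans sdiff_subset
  by_contra hne
  have h5 : 3 * (cols e Y).card ≤ 4 * Y.card := by omega
  have hYD : ∀ x, (rho e Y x).card ≤ 3 := fun x =>
    (card_le_card (rho_mono hYW x)).trans (h.hD x)
  have h6 : ∀ x ∈ cols e Y, (rho e Y x).card = 3 := by
    intro x hx
    by_contra hc
    have h7 := count_def h.h4 (W := Y) (k := 2) hYD (S := {x}) (singleton_subset_iff.2 hx)
      (fun y hy => by
        rw [mem_singleton.1 hy]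
        have := hYD x
        omega)
    rw [card_singleton] at h7
    omega
  apply h.not_split hYW (nonempty_iff_ne_empty.2 hne) (hd.side_ne hYR)
  refine disjoint_left.2 ?_
  intro x hx hx'
  obtain ⟨j, hj, hxj⟩ := mem_cols.1 hx'
  obtain ⟨hjW, hjY⟩ := mem_sdiff.1 hj
  have h7 : rho e Y x = rho e W x := by
    apply eq_of_subset_of_card_le (rho_mono hYW x)
    rw [h6 x hx]
    exact h.hD x
  have h8 : j ∈ rho e Y x := by
    rw [h7, mem_rho]
    exact ⟨hjW, hxj⟩
  exact hjY (mem_rho.1 h8).1

/-- The vertices of a single side have degree at most two. -/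
theorem Dec.single (h : Ctx e W) {v : V} {l : ι} {P : Finset ι} (hd : Dec e W v {l} P) :
    ∀ x ∈ e l, (rho e W x).card ≤ 2 := by
  obtain ⟨hl4, hY⟩ := hd.rest_empty h
  set T := rho e W v with hT
  have hR : W \ T = {l} ∪ P := by
    apply Subset.antisymm
    · exact sdiff_eq_empty_iff_subset.1 hY
    · exact union_subset hd.s1.sub hd.s2.sub
  have hlR : l ∈ W \ T := hd.s1.sub (mem_singleton_self l)
  have hlW : l ∈ W := (mem_sdiff.1 hlR).1
  have hlT : l ∉ T := (mem_sdiff.1 hlR).2
  have hlP : l ∉ P := fun h' => disjoint_left.1 hd.disj (mem_singleton_self l) h'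
  have hT3 : T.card = 3 := hd.triple
  have hWc : W.card = P.card + 4 := by
    have h1 := card_sdiff_add_card_eq_card (rho_sub (e := e) W v)
    rw [← hT, hR, card_union_of_disjoint hd.disj, card_singleton, hT3] at h1
    omega
  have hcolR : cols e (W \ T) = e l ∪ cols e P := by rw [hR, cols_union, cols_singleton]
  have hvR : v ∉ cols e (W \ T) := by
    intro hcon
    obtain ⟨i, hi, hvi⟩ := mem_cols.1 hcon
    obtain ⟨h1, h2⟩ := mem_sdiff.1 hi
    exact h2 (mem_rho.2 ⟨h1, hvi⟩)
  have hcW : (cols e W).card = (cols e P).card + 5 := by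
    have h1 := hd.sep.card_cols
    rw [← hR, cols_singleton, hl4] at h1
    rw [hd.cols_eq, card_insert_of_notMem hvR, h1]
    omega
  have hval := h.val_le
  have htauW := h.tau_eq
  have htauP := hd.s2.tau_eq
  -- the impossible configuration
  have hF : ∀ a b c, T ⊆ {a, b, c} → ¬ Sep e P {a} → ∀ y, y ∈ e l → y ∈ e b → y ∈ e c →
      False := by
    intro a b c habc ha y hyl hyb hyc
    have h1 : W ⊆ (P ∪ {a}) ∪ {l, b, c} := by
      intro i hi
      by_cases hiT : i ∈ T
      · have := habc hiT
        simp only [mem_insert, mem_singleton, mem_union] at this ⊢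
        tauto
      · have : i ∈ W \ T := mem_sdiff.2 ⟨hi, hiT⟩
        rw [hR] at this
        simp only [mem_insert, mem_singleton, mem_union] at this ⊢
        tauto
    have h2 := tau_le_of_subset h.hne h1
    have h3 := hd.symm.adj h ha
    have h4 : tau e ({l, b, c} : Finset ι) ≤ 1 := by
      apply tau_le_one y
      intro i hi
      simp only [mem_insert, mem_singleton] at hi
      rcases hi with rfl | rfl | rfl <;> assumption
    omega
  intro x hx
  by_contra hc
  push Not at hc
  have hx3 : (rho e W x).card = 3 := by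
    have := h.hD x
    omega
  -- the edges at `x`
  have hxT : (rho e W x ∩ T).card = 2 := by
    have h1 : rho e W x = insert l (rho e W x ∩ T) := by
      apply Subset.antisymm
      · intro i hi
        rw [mem_insert, mem_inter]
        by_cases hiT : i ∈ T
        · exact Or.inr ⟨hi, hiT⟩
        · left
          obtain ⟨hiW, hxi⟩ := mem_rho.1 hi
          have h2 : i ∈ W \ T := mem_sdiff.2 ⟨hiW, hiT⟩
          rw [hR, mem_union, mem_singleton] at h2
          rcases h2 with h2 | h2
          · exact h2
          · exact absurd hd.sep (not_sep' (mem_singleton_self l) h2 hx hxi)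
      · apply insert_subset (mem_rho.2 ⟨hlW, hx⟩) inter_subset_left
    have h2 : l ∉ rho e W x ∩ T := fun h' => hlT (mem_inter.1 h').2
    have h3 := congrArg card h1
    rw [card_insert_of_notMem h2, hx3] at h3
    omega
  obtain ⟨p, q, hpq, hxT'⟩ := card_eq_two.1 hxT
  have hp : p ∈ rho e W x ∩ T := by rw [hxT']; simp
  have hq : q ∈ rho e W x ∩ T := by rw [hxT']; simp
  obtain ⟨hpx, hpT⟩ := mem_inter.1 hp
  obtain ⟨hqx, hqT⟩ := mem_inter.1 hq
  have hpx' : x ∈ e p := (mem_rho.1 hpx).2
  have hqx' : x ∈ e q := (mem_rho.1 hqx).2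
  have hr1 : (T \ (rho e W x ∩ T)).card = 1 := by
    have h1 := card_sdiff_add_card_eq_card (s := rho e W x ∩ T) (t := T) inter_subset_right
    rw [hxT, hT3] at h1
    omega
  obtain ⟨r, hr⟩ := card_eq_one.1 hr1
  have hrmem : r ∈ T \ (rho e W x ∩ T) := by rw [hr]; exact mem_singleton_self r
  obtain ⟨hrT, hrx⟩ := mem_sdiff.1 hrmem
  have hrW : r ∈ W := (mem_rho.1 hrT).1
  have hrx' : x ∉ e r := fun h' => hrx (mem_inter.2 ⟨mem_rho.2 ⟨hrW, h'⟩, hrT⟩)
  have hTeq : T ⊆ {p, q, r} := by
    intro i hi
    by_cases h1 : i ∈ rho e W x ∩ T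
    · rw [hxT'] at h1
      simp only [mem_insert, mem_singleton] at h1 ⊢
      tauto
    · have : i ∈ T \ (rho e W x ∩ T) := mem_sdiff.2 ⟨hi, h1⟩
      rw [hr, mem_singleton] at this
      simp [this]
  -- the third edge
  have hrsep : Sep e P {r} := by
    by_contra hcon
    refine hF r p q ?_ hcon x hx hpx' hqx'
    intro i hi
    have := hTeq hi
    simp only [mem_insert, mem_singleton] at this ⊢
    tauto
  have hecol : ∀ i ∈ W, ∀ y ∈ e i, y = v ∨ y ∈ e l ∨ y ∈ cols e P := by
    intro i hi y hy
    have h1 : y ∈ cols e W := mem_cols.2 ⟨i, hi, hy⟩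
    rw [hd.cols_eq, mem_insert, hcolR, mem_union] at h1
    exact h1
  have her : (e l).erase x ⊆ e r := by
    have h1 : e r ⊆ insert v ((e l).erase x) := by
      intro y hy
      rw [mem_insert, mem_erase]
      rcases hecol r hrW y hy with h2 | h2 | h2
      · exact Or.inl h2
      · right
        refine ⟨?_, h2⟩
        rintro rfl
        exact hrx' hy
      · exfalso
        obtain ⟨j, hj, hyj⟩ := mem_cols.1 h2
        exact not_sep' hj (mem_singleton_self r) hyj hy hrsep
    have h2 : e r = insert v ((e l).erase x) := by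
      apply eq_of_subset_of_card_le h1
      have h3 := card_insert_le v ((e l).erase x)
      have h4 := card_erase_add_one hx
      have h5 := h.h4 r
      omega
    rw [h2]
    exact subset_insert _ _
  -- the other two edges are adjacent to `P`
  have hadj : {p, q} ⊆ adjT e W v P := by
    have h1 : adjT e W v P ⊆ {p, q} := by
      intro i hi
      obtain ⟨h2, h3⟩ := mem_adjT.1 hi
      have h4 := hTeq h2
      simp only [mem_insert, mem_singleton] at h4 ⊢
      rcases h4 with h4 | h4 | h4
      · exact Or.inl h4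
      · exact Or.inr h4
      · rw [h4] at h3
        exact absurd hrsep h3
    have h2 := hd.symm.two_adj h
    have h3 : adjT e W v P = {p, q} := by
      apply eq_of_subset_of_card_le h1
      rw [card_pair hpq]
      exact h2
    rw [h3]
  have hpadj : ¬ Sep e P {p} := (mem_adjT.1 (hadj (by simp))).2
  have hqadj : ¬ Sep e P {q} := (mem_adjT.1 (hadj (by simp))).2
  have hpl : ∀ y ∈ e p, y ∈ e l → y = x := by
    intro y hyp hyl
    by_contra hne
    refine hF q p r ?_ hqadj y hyl hyp (her (mem_erase.2 ⟨hne, hyl⟩))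
    intro i hi
    have := hTeq hi
    simp only [mem_insert, mem_singleton] at this ⊢
    tauto
  have hql : ∀ y ∈ e q, y ∈ e l → y = x := by
    intro y hyp hyl
    by_contra hne
    refine hF p q r ?_ hpadj y hyl hyp (her (mem_erase.2 ⟨hne, hyl⟩))
    intro i hi
    have := hTeq hi
    simp only [mem_insert, mem_singleton] at this ⊢
    tauto
  -- the last covering
  have hpW : p ∈ W := (mem_rho.1 hpT).1
  have hqW : q ∈ W := (mem_rho.1 hqT).1
  have hXW : {p, q} ∪ P ⊆ W := by
    apply union_subset _ hd.symm.side_sub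
    intro i hi
    simp only [mem_insert, mem_singleton] at hi
    rcases hi with rfl | rfl <;> assumption
  have hlX : l ∉ {p, q} ∪ P := by
    rw [mem_union, not_or]
    refine ⟨?_, hlP⟩
    simp only [mem_insert, mem_singleton, not_or]
    exact ⟨fun h' => hlT (h' ▸ hpT), fun h' => hlT (h' ▸ hqT)⟩
  have hXne : {p, q} ∪ P ≠ W := fun h' => hlX (h' ▸ hlW)
  have k1 := h.ih _ hXW hXne
  have k2 := nu_mono (e := e) hXW
  have k3 : ({p, q} ∪ P).card ≤ P.card + 2 := by
    have h1 := card_union_le ({p, q} : Finset ι) P
    rw [card_pair hpq] at h1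
    omega
  have k4 : (cols e ({p, q} ∪ P)).card ≤ (cols e P).card + 2 := by
    have h1 : cols e ({p, q} ∪ P) ⊆ insert v (insert x (cols e P)) := by
      intro y hy
      obtain ⟨i, hi, hyi⟩ := mem_cols.1 hy
      rw [mem_insert, mem_insert]
      rcases mem_union.1 hi with hi | hi
      · simp only [mem_insert, mem_singleton] at hi
        rcases hecol i (by rcases hi with rfl | rfl <;> assumption) y hyi with h2 | h2 | h2
        · exact Or.inl h2
        · right
          left
          rcases hi with rfl | rfl
          · exact hpl y hyi h2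
          · exact hql y hyi h2
        · exact Or.inr (Or.inr h2)
      · exact Or.inr (Or.inr (mem_cols.2 ⟨i, hi, hyi⟩))
    have h2 := card_le_card h1
    have h3 := card_insert_le v (insert x (cols e P))
    have h4 := card_insert_le x (cols e P)
    omega
  have k5 : W ⊆ ({p, q} ∪ P) ∪ {l, r} := by
    intro i hi
    by_cases hiT : i ∈ T
    · have := hTeq hiT
      simp only [mem_insert, mem_singleton, mem_union] at this ⊢
      tauto
    · have : i ∈ W \ T := mem_sdiff.2 ⟨hi, hiT⟩
      rw [hR] at this
      simp only [mem_insert, mem_singleton, mem_union] at this ⊢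
      tauto
  have k6 := tau_le_of_subset h.hne k5
  have k7 : tau e ({l, r} : Finset ι) ≤ 1 := by
    have h1 := card_erase_add_one hx
    obtain ⟨y, hy⟩ : ((e l).erase x).Nonempty := card_pos.1 (by omega)
    apply tau_le_one y
    intro i hi
    simp only [mem_insert, mem_singleton] at hi
    rcases hi with rfl | rfl
    · exact (mem_erase.1 hy).2
    · exact her hy
  omega

theorem inter_two {A B C : Finset V} (hA : A.card = 4) (hB : B.card = 4) (hC : C.card = 4)
    (hU : (A ∪ B ∪ C).card ≤ 6) (hI : A ∩ B ∩ C = ∅) : (A ∩ B).card = 2 := by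
  have h1 : ∀ X Y : Finset V, X.card = 4 → Y.card = 4 → X ∪ Y ⊆ A ∪ B ∪ C →
      2 ≤ (X ∩ Y).card := by
    intro X Y hX hY hXY
    have h2 := card_union_add_card_inter X Y
    have h3 := card_le_card hXY
    omega
  have h2 := h1 A B hA hB subset_union_left
  have h3 := h1 A C hA hC (by
    intro y hy
    simp only [mem_union] at hy ⊢
    tauto)
  have h4 : Disjoint (A ∩ B) (A ∩ C) := by
    refine disjoint_left.2 ?_
    intro y hy hy'
    have : y ∈ A ∩ B ∩ C := mem_inter.2 ⟨hy, (mem_inter.1 hy').2⟩
    rw [hI] at this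
    exact notMem_empty _ this
  have h5 : (A ∩ B) ∪ (A ∩ C) ⊆ A := union_subset inter_subset_left inter_subset_left
  have h6 := card_le_card h5
  rw [card_union_of_disjoint h4] at h6
  omega

theorem Ctx.no_pairs (h : Ctx e W) (h2 : ∀ x, (rho e W x).card ≤ 2) : False := by
  have h1 := count h.h4 (k := 1) h2
  have hv := h.val_le
  have ht := h.tau_eq
  have hcase : W.card = 1 ∨ W.card = 3 := by omega
  rcases hcase with hc | hc
  · obtain ⟨a, rfl⟩ := card_eq_one.1 hc
    rw [cols_singleton] at hv
    have := h.h4 a
    omega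
  · obtain ⟨a, b, c, hab, hac, hbc, hWeq⟩ := card_eq_three.1 hc
    have hc6 : (cols e W).card = 6 := by omega
    have hnu : nu e W = 0 := by omega
    have hsum := sum_card (e := e) W
    have hle : ∑ x ∈ cols e W, (rho e W x).card ≤ (cols e W).card * 2 := by
      rw [← smul_eq_mul]
      exact sum_le_card_nsmul _ _ _ (fun x _ => h2 x)
    rw [← hsum, hWeq, sum_insert (by simp [hab, hac]), sum_insert (by simp [hbc]),
      sum_singleton, ← hWeq, hc6] at hle
    have ha4 := h.h4 a
    have hb4 := h.h4 b
    have hc4 := h.h4 c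
    have haW : a ∈ W := by rw [hWeq]; simp
    have hbW : b ∈ W := by rw [hWeq]; simp
    have hcW : c ∈ W := by rw [hWeq]; simp
    have ha : (e a).card = 4 := by omega
    have hb : (e b).card = 4 := by omega
    have hc' : (e c).card = 4 := by omega
    have hI : e a ∩ e b ∩ e c = ∅ := by
      apply eq_empty_of_forall_notMem
      intro x hx
      simp only [mem_inter] at hx
      have h3 : W ⊆ rho e W x := by
        intro i hi
        rw [mem_rho]
        refine ⟨hi, ?_⟩
        rw [hWeq] at hi
        simp only [mem_insert, mem_singleton] at hi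
        rcases hi with rfl | rfl | rfl <;> tauto
      have h4 := card_le_card h3
      have h5 := h2 x
      omega
    have hU : e a ∪ e b ∪ e c = cols e W := by
      ext x
      rw [mem_cols, hWeq]
      simp only [mem_union, mem_insert, mem_singleton, exists_eq_or_imp, exists_eq_left]
      tauto
    have k1 : (e a ∩ e b).card = 2 := inter_two ha hb hc' (by rw [hU, hc6]) hI
    have k2 : (e a ∩ e c).card = 2 := by
      apply inter_two ha hc' hb
      · rw [union_right_comm, hU, hc6]
      · rw [inter_right_comm]
        exact hI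
    have k3 : (e b ∩ e c).card = 2 := by
      apply inter_two hb hc' ha
      · rw [union_comm, ← union_assoc, hU, hc6]
      · rw [inter_comm, ← inter_assoc]
        exact hI
    have := nu_pos haW hbW hcW ⟨ha, hb, hc', k1, k2, k3, hI⟩
    omega

theorem Ctx.false (h : Ctx e W) : False := by
  by_cases hex : ∃ v, (rho e W v).card = 3
  · obtain ⟨v, hv⟩ := hex
    obtain ⟨P, P', hd⟩ := exists_dec h hv
    obtain ⟨l, hl, x, P2, h1⟩ := hd.exists_single h _ rfl
    obtain ⟨l', hl', x', P2', h1'⟩ := hd.symm.exists_single h _ rfl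
    have h2 := h1.single h
    have h2' := h1'.single h
    have h3 : Disjoint (e l) (e l') := sep_iff.1 hd.sep l hl l' hl'
    have h4 : e l ∪ e l' ⊆ cols e W :=
      union_subset (sub_cols (hd.side_sub hl)) (sub_cols (hd.symm.side_sub hl'))
    have h5 := count_def h.h4 (k := 2) h.hD h4 (by
      intro y hy
      rcases mem_union.1 hy with hy | hy
      · exact h2 y hy
      · exact h2' y hy)
    rw [card_union_of_disjoint h3] at h5
    have h6 := h.val_le
    have h7 := h.h4 l
    have h8 := h.h4 l'
    omega
  · push Not at hex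
    apply h.no_pairs
    intro x
    have h1 := h.hD x
    have h2 := hex x
    omega

/-- The main bound. -/
theorem bound (h4 : ∀ i, 4 ≤ (e i).card) (W : Finset ι) :
    26 * tau e W ≤ 5 * W.card + 6 * (cols e W).card + nu e W := by
  have hne : ∀ i, (e i).Nonempty := nonempty_of_four h4
  induction hn : W.card using Nat.strong_induction_on generalizing W with
  | _ n ih =>
    rw [← hn]
    by_cases hD : ∀ x, (rho e W x).card ≤ 3
    · by_contra hcon
      push Not at hcon
      refine Ctx.false (e := e) (W := W) ⟨h4, hD, ?_, hcon⟩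
      intro X hX hXW
      have h1 : X.card < n := by
        rw [← hn]
        exact card_lt_card (Finset.ssubset_iff_subset_ne.2 ⟨hX, hXW⟩)
      exact ih X.card h1 X rfl
    · push Not at hD
      obtain ⟨x, hx⟩ := hD
      have h1 := card_sdiff_add_card_eq_card (rho_sub (e := e) W x)
      have h2 := ih (W \ rho e W x).card (by omega) (W \ rho e W x) rfl
      have h3 : tau e W ≤ tau e (W \ rho e W x) + 1 := by
        have h4 : W ⊆ (W \ rho e W x) ∪ rho e W x := by
          intro i hi
          rw [mem_union, mem_sdiff]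
          tauto
        have h5 := tau_le_of_subset hne h4
        have h6 := tau_le_one (e := e) (W := rho e W x) x (fun i hi => (mem_rho.1 hi).2)
        omega
      have h5 : insert x (cols e (W \ rho e W x)) ⊆ cols e W := by
        apply insert_subset _ (cols_mono sdiff_subset)
        obtain ⟨i, hi⟩ : (rho e W x).Nonempty := card_pos.1 (by omega)
        exact mem_cols.2 ⟨i, (mem_rho.1 hi).1, (mem_rho.1 hi).2⟩
      have h6 : x ∉ cols e (W \ rho e W x) := by
        intro hcon
        obtain ⟨i, hi, hvi⟩ := mem_cols.1 hcon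
        obtain ⟨h1, h2⟩ := mem_sdiff.1 hi
        exact h2 (mem_rho.2 ⟨h1, hvi⟩)
      have h7 := card_le_card h5
      rw [card_insert_of_notMem h6] at h7
      have h8 := nu_mono (e := e) (sdiff_subset : W \ rho e W x ⊆ W)
      omega

end Pool.Agent.TD5
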