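import Pool.Agent.TD5.Final

set_option autoImplicit false

namespace Pool.Agent.TD5

open Finset

/-- The hypergraph form of the bound. -/
theorem hyp_form {ι V : Type*} [Fintype V] [DecidableEq V] [Fintype ι] [DecidableEq ι]
    (e : ι → Finset V) (h4 : ∀ i, 4 ≤ (e i).card) :
    ∃ (D : Finset V) (T : Finset (Finset ι)), (∀ i, ∃ x ∈ D, x ∈ e i) ∧
      (∀ F ∈ T, ∃ a b c, F = {a, b, c} ∧ Doubled e a b c) ∧
      (∀ F ∈ T, ∀ F' ∈ T, F ≠ F' → ∀ i ∈ F, ∀ j ∈ F', Disjoint (e i) (e j)) ∧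
      26 * D.card ≤ 6 * Fintype.card V + 5 * Fintype.card ι + T.card := by
  obtain ⟨D, hD, hDc⟩ := tau_spec (nonempty_of_four h4) (univ : Finset ι)
  obtain ⟨T, hT, hTc⟩ := nu_spec (e := e) (univ : Finset ι)
  refine ⟨D, T, fun i => hD i (mem_univ i), fun F hF => (hT.1 F hF).2, ?_, ?_⟩
  · intro F hF F' hF' hne i hi j hj
    exact sep_iff.1 (hT.2 F hF F' hF' hne) i hi j hj
  · have h1 := bound h4 (univ : Finset ι)
    have h2 : (cols e (univ : Finset ι)).card ≤ Fintype.card V := card_le_univ _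
    rw [card_univ] at h1
    omega

end Pool.Agent.TD5
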