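import Pool.Agent.TD5.Struct

set_option autoImplicit false

namespace Pool.Agent.TD5

open Finset

variable {ι V : Type*} [DecidableEq ι] [DecidableEq V] {e : ι → Finset V}

/-- The elements of `A` meeting a member of `Z`. -/
def nA (e : ι → Finset V) (A : Finset ι) (Z : Finset (Finset ι)) : Finset ι :=
  A.filter (fun a => ∃ P ∈ Z, ¬ Disjoint (cols e P) (cols e {a}))

theorem mem_nA {A : Finset ι} {Z : Finset (Finset ι)} {a : ι} :
    a ∈ nA e A Z ↔ a ∈ A ∧ ∃ P ∈ Z, ¬ Sep e P {a} := by
  rw [nA, mem_filter]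
  rfl

theorem tau_erase_insert (hne : ∀ i, (e i).Nonempty) {P : Finset ι} {a : ι}
    (hfc : ∀ i ∈ P, 2 * tau e (P.erase i) + 1 ≤ P.card) (ha : ¬ Sep e P {a}) :
    2 * tau e (P ∪ {a}) ≤ P.card + 1 := by
  obtain ⟨x, i, hi, j, hj, hxi, hxj⟩ := not_sep ha
  rw [mem_singleton] at hj
  subst hj
  have h1 : P ∪ {j} ⊆ P.erase i ∪ {i, j} := by
    intro k hk
    simp only [mem_union, mem_erase, mem_insert, mem_singleton] at hk ⊢
    tauto
  have h2 := tau_le_of_subset hne h1
  have h3 : tau e ({i, j} : Finset ι) ≤ 1 := by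
    apply tau_le_one x
    intro k hk
    simp only [mem_insert, mem_singleton] at hk
    rcases hk with rfl | rfl
    · exact hxi
    · exact hxj
  have h4 := hfc i hi
  omega

theorem tau_erase_one (hne : ∀ i, (e i).Nonempty) {P : Finset ι} (hP : P.Nonempty)
    (hfc : ∀ i ∈ P, 2 * tau e (P.erase i) + 1 ≤ P.card) :
    2 * tau e P ≤ P.card + 1 := by
  obtain ⟨i, hi⟩ := hP
  have h1 : P ⊆ P.erase i ∪ {i} := by
    intro k hk
    simp only [mem_union, mem_erase, mem_singleton]
    tauto
  have h2 := tau_le_of_subset hne h1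
  have h3 := tau_singleton hne i
  have h4 := hfc i hi
  omega

theorem key_cover (hne : ∀ i, (e i).Nonempty) (W : Finset ι) : ∃ A Q B, Cert e W A Q ∧
    W = A ∪ Q.biUnion id ∧ B ⊆ Q ∧ (∀ P ∈ B, P.card + 1 ≤ 2 * tau e P) ∧
    2 * tau e W + (nA e A B).card ≤ W.card + B.card := by
  classical
  obtain ⟨A, Q, hc, hW, hHall, hfc⟩ := struct hne W
  set bad := Q.filter (fun P => P.card + 1 ≤ 2 * tau e P) with hbad
  have hbadQ : bad ⊆ Q := filter_subset _ _
  obtain ⟨B, hB, hmax⟩ := exists_max_image bad.powerset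
    (fun Z => Z.card + A.card - (nA e A Z).card) ⟨∅, by simp⟩
  rw [mem_powerset] at hB
  have hnA : ∀ Z, (nA e A Z).card ≤ A.card := fun Z => card_le_card (filter_subset _ _)
  have hmax' : ∀ Z ⊆ bad, Z.card + (nA e A B).card ≤ (nA e A Z).card + B.card := by
    intro Z hZ
    have := hmax Z (mem_powerset.2 hZ)
    have h1 := hnA Z
    have h2 := hnA B
    omega
  have h0 : nA e A ∅ = ∅ := by
    apply eq_empty_of_forall_notMem
    intro a ha
    obtain ⟨-, P, hP, -⟩ := mem_nA.1 ha
    exact notMem_empty _ hP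
  -- the deficiency of `A`
  have hdef : ∀ Z ⊆ Q, A.card + Z.card ≤ (nA e A Z).card + Q.card := by
    intro Z hZ
    have h1 := hHall (A \ nA e A Z) sdiff_subset
    have h2 : nbr e Q (A \ nA e A Z) ⊆ Q \ Z := by
      intro P hP
      obtain ⟨hP1, hP2⟩ := mem_nbr.1 hP
      rw [mem_sdiff]
      refine ⟨hP1, ?_⟩
      intro hPZ
      obtain ⟨x, i, hi, j, hj, hxi, hxj⟩ := not_sep hP2
      rw [mem_sdiff] at hj
      apply hj.2
      rw [mem_nA]
      refine ⟨hj.1, P, hPZ, ?_⟩
      intro hs
      exact disjoint_left.1 (sep_iff.1 hs i hi j (mem_singleton_self j)) hxi hxj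
    have h3 := card_le_card h2
    have h4 := card_sdiff_add_card_eq_card hZ
    have h5 := card_sdiff_add_card_eq_card (s := nA e A Z) (t := A) (filter_subset _ _)
    omega
  have hAQ : A.card ≤ Q.card := by
    have := hdef ∅ (empty_subset _)
    rw [h0] at this
    simpa using this
  have hb0 : (nA e A B).card ≤ B.card := by
    have := hmax' ∅ (empty_subset _)
    simp only [h0, card_empty, zero_add] at this
    exact this
  obtain ⟨b, hb⟩ : ∃ b, b = B.card - (nA e A B).card := ⟨_, rfl⟩
  obtain ⟨d, hd⟩ : ∃ d, d = Q.card - A.card := ⟨_, rfl⟩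
  have hbd : b ≤ d := by
    have := hdef B (hB.trans hbadQ)
    omega
  -- Hall's theorem
  set t : Q → Finset (ι ⊕ ℕ) := fun P =>
    (nA e A {(P : Finset ι)}).disjSum (if (P : Finset ι) ∈ bad then range b else range d) with ht
  have hhall : ∀ s : Finset Q, s.card ≤ (s.biUnion t).card := by
    intro s
    rcases s.eq_empty_or_nonempty with rfl | hs
    · simp
    set Z : Finset (Finset ι) := s.map (Function.Embedding.subtype _) with hZ
    have hZc : Z.card = s.card := card_map _
    have hZmem : ∀ P, P ∈ Z ↔ ∃ h : P ∈ Q, (⟨P, h⟩ : Q) ∈ s := by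
      intro P
      simp only [hZ, mem_map, Function.Embedding.subtype_apply]
      constructor
      · rintro ⟨a, ha, rfl⟩
        exact ⟨a.2, ha⟩
      · rintro ⟨h, h'⟩
        exact ⟨⟨P, h⟩, h', rfl⟩
    have hZQ : Z ⊆ Q := fun P hP => ((hZmem P).1 hP).1
    have gen : ∀ k, (∀ n < k, ∃ P : Q, P ∈ s ∧ Sum.inr n ∈ t P) →
        (nA e A Z).card + k ≤ (s.biUnion t).card := by
      intro k hk
      have h1 : (nA e A Z).disjSum (range k) ⊆ s.biUnion t := by
        intro y hy
        rw [mem_biUnion]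
        rcases mem_disjSum.1 hy with ⟨a, ha, rfl⟩ | ⟨n, hn, rfl⟩
        · obtain ⟨haA, P, hP, hs'⟩ := mem_nA.1 ha
          obtain ⟨hPQ, hPs⟩ := (hZmem P).1 hP
          refine ⟨⟨P, hPQ⟩, hPs, ?_⟩
          rw [ht]
          apply mem_disjSum.2
          left
          exact ⟨a, mem_nA.2 ⟨haA, P, mem_singleton_self _, hs'⟩, rfl⟩
        · exact hk n (mem_range.1 hn)
      have h2 := card_le_card h1
      rwa [card_disjSum, card_range] at h2
    by_cases hZb : Z ⊆ bad
    · obtain ⟨P, hP⟩ := hs
      have h1 := gen b (fun n hn => ⟨P, hP, by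
        rw [ht]
        apply mem_disjSum.2
        right
        refine ⟨n, ?_, rfl⟩
        have : (P : Finset ι) ∈ bad := hZb ((hZmem _).2 ⟨P.2, hP⟩)
        rw [if_pos this]
        exact mem_range.2 hn⟩)
      have h2 := hmax' Z hZb
      omega
    · obtain ⟨P, hPZ, hPb⟩ := not_subset.1 hZb
      obtain ⟨hPQ, hPs⟩ := (hZmem P).1 hPZ
      have h1 := gen d (fun n hn => ⟨⟨P, hPQ⟩, hPs, by
        rw [ht]
        apply mem_disjSum.2
        right
        refine ⟨n, ?_, rfl⟩
        rw [if_neg hPb]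
        exact mem_range.2 hn⟩)
      have h2 := hdef Z hZQ
      omega
  obtain ⟨f, hf, hft⟩ := (all_card_le_biUnion_card_iff_exists_injective t).1 hhall
  have hfl : ∀ P a, f P = Sum.inl a → a ∈ A ∧ ¬ Sep e (P : Finset ι) {a} := by
    intro P a h
    have h1 := hft P
    rw [h, ht] at h1
    rcases mem_disjSum.1 h1 with ⟨a', ha', h2⟩ | ⟨n, -, h2⟩
    · rw [Sum.inl.injEq] at h2
      subst h2
      obtain ⟨h3, P', hP', h4⟩ := mem_nA.1 ha'
      rw [mem_singleton] at hP'
      subst hP'
      exact ⟨h3, h4⟩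
    · exact absurd h2 (by simp)
  have hfr : ∀ P n, f P = Sum.inr n → n < d ∧ ((P : Finset ι) ∈ bad → n < b) := by
    intro P n h
    have h1 := hft P
    rw [h, ht] at h1
    rcases mem_disjSum.1 h1 with ⟨a', -, h2⟩ | ⟨n', hn', h2⟩
    · exact absurd h2 (by simp)
    · rw [Sum.inr.injEq] at h2
      subst h2
      by_cases hP : (P : Finset ι) ∈ bad
      · rw [if_pos hP, mem_range] at hn'
        exact ⟨lt_of_lt_of_le hn' hbd, fun _ => hn'⟩
      · rw [if_neg hP, mem_range] at hn'
        exact ⟨hn', fun h => absurd h hP⟩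
  -- the two parts
  set Ql := (univ : Finset Q).filter (fun P => ∃ a, f P = Sum.inl a) with hQl
  set Qr := (univ : Finset Q).filter (fun P => ∃ n, f P = Sum.inr n) with hQr
  obtain ⟨Qb, hQb⟩ : ∃ Qb : Finset Q, Qb = Qr.filter (fun P : Q => (P : Finset ι) ∈ bad) :=
    ⟨_, rfl⟩
  have hsplit : Ql.card + Qr.card = Q.card := by
    have h1 : Disjoint Ql Qr := by
      refine disjoint_left.2 ?_
      intro P hP hP'
      obtain ⟨-, a, ha⟩ := mem_filter.1 hP
      obtain ⟨-, n, hn⟩ := mem_filter.1 hP'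
      rw [ha] at hn
      exact absurd hn (by simp)
    have h2 : Ql ∪ Qr = univ := by
      ext P
      simp only [hQl, hQr, mem_union, mem_filter, mem_univ, true_and, iff_true]
      rcases f P with a | n
      · exact Or.inl ⟨a, rfl⟩
      · exact Or.inr ⟨n, rfl⟩
    rw [← card_union_of_disjoint h1, h2, card_univ, Fintype.card_coe]
  have hQrle : Qr.card ≤ d := by
    have h1 : Qr.image f ⊆ (range d).image Sum.inr := by
      intro y hy
      obtain ⟨P, hP, rfl⟩ := mem_image.1 hy
      obtain ⟨-, n, hn⟩ := mem_filter.1 hP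
      rw [hn]
      exact mem_image_of_mem _ (mem_range.2 (hfr P n hn).1)
    have h2 := card_le_card h1
    rw [card_image_of_injective _ hf] at h2
    exact h2.trans (card_image_le.trans (by simp))
  have hQlim : Ql.image f ⊆ A.image Sum.inl := by
    intro y hy
    obtain ⟨P, hP, rfl⟩ := mem_image.1 hy
    obtain ⟨-, a, ha⟩ := mem_filter.1 hP
    rw [ha]
    exact mem_image_of_mem _ (hfl P a ha).1
  have hQlle : Ql.card ≤ A.card := by
    have h2 := card_le_card hQlim
    rw [card_image_of_injective _ hf, card_image_of_injective _ Sum.inl_injective] at h2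
    exact h2
  have hQleq : Ql.image f = A.image Sum.inl := by
    apply eq_of_subset_of_card_le hQlim
    rw [card_image_of_injective _ hf, card_image_of_injective _ Sum.inl_injective]
    omega
  -- the cover
  set g : Q → Finset ι := fun P => (P : Finset ι) ∪ A.filter (fun a => f P = Sum.inl a) with hg
  have hWg : W ⊆ (univ : Finset Q).biUnion g := by
    intro i hi
    rw [hW] at hi
    rw [mem_biUnion]
    rcases mem_union.1 hi with h | h
    · have h1 : (Sum.inl i : ι ⊕ ℕ) ∈ Ql.image f := by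
        rw [hQleq]
        exact mem_image_of_mem _ h
      obtain ⟨P, -, hP⟩ := mem_image.1 h1
      exact ⟨P, mem_univ _, mem_union_right _ (mem_filter.2 ⟨h, hP⟩)⟩
    · obtain ⟨P, hP, hiP⟩ := mem_biUnion.1 h
      exact ⟨⟨P, hP⟩, mem_univ _, mem_union_left _ hiP⟩
  have hgb : ∀ P : Q, 2 * tau e (g P) ≤ (P : Finset ι).card +
      ((if P ∈ Ql then 1 else 0) + (if P ∈ Qb then 1 else 0)) := by
    intro P
    rcases hfP : f P with a | n
    · have h1 : P ∈ Ql := mem_filter.2 ⟨mem_univ _, a, hfP⟩
      have h2 : g P = (P : Finset ι) ∪ {a} := by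
        change (P : Finset ι) ∪ A.filter (fun a => f P = Sum.inl a) = (P : Finset ι) ∪ {a}
        congr 1
        ext a'
        rw [mem_filter, hfP, Sum.inl.injEq, mem_singleton]
        constructor
        · rintro ⟨-, rfl⟩
          rfl
        · rintro rfl
          exact ⟨(hfl P _ hfP).1, rfl⟩
      have h3 := tau_erase_insert hne (hfc P P.2) (hfl P a hfP).2
      rw [h2, if_pos h1]
      omega
    · have h2 : g P = (P : Finset ι) := by
        have : A.filter (fun a => f P = Sum.inl a) = ∅ := by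
          apply filter_eq_empty_iff.2
          intro a _
          rw [hfP]
          simp
        change (P : Finset ι) ∪ A.filter (fun a => f P = Sum.inl a) = (P : Finset ι)
        rw [this, union_empty]
      rw [h2]
      by_cases hP : (P : Finset ι) ∈ bad
      · have h1 : P ∈ Qb := by
          rw [hQb]
          exact mem_filter.2 ⟨mem_filter.2 ⟨mem_univ _, n, hfP⟩, hP⟩
        rw [if_pos h1]
        have := tau_erase_one hne (hc.nonempty P.2) (hfc P P.2)
        omega
      · have h1 : ¬ ((P : Finset ι).card + 1 ≤ 2 * tau e (P : Finset ι)) := by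
          intro hcon
          exact hP (mem_filter.2 ⟨P.2, hcon⟩)
        omega
  have htau : tau e W ≤ ∑ P : Q, tau e (g P) := (tau_mono hne hWg).trans (tau_biUnion hne _ _)
  have hsum : ∑ P : Q, 2 * tau e (g P) ≤ ∑ P ∈ Q, P.card + (Ql.card + Qb.card) := by
    refine (sum_le_sum (fun P _ => hgb P)).trans ?_
    rw [sum_add_distrib, sum_add_distrib]
    have h1 : ∑ P : Q, (P : Finset ι).card = ∑ P ∈ Q, P.card :=
      sum_coe_sort Q (fun P => P.card)
    have h2 : ∀ S : Finset Q, ∑ P : Q, (if P ∈ S then 1 else 0) = S.card := by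
      intro S
      rw [sum_boole, filter_mem_eq_inter, univ_inter]
      rfl
    rw [h1, h2, h2]
  have hbadr : Qb.card ≤ b := by
    have h1 : Qb.image f ⊆ (range b).image Sum.inr := by
      intro y hy
      obtain ⟨P, hP, rfl⟩ := mem_image.1 hy
      rw [hQb] at hP
      obtain ⟨hP1, hP2⟩ := mem_filter.1 hP
      obtain ⟨-, n, hn⟩ := mem_filter.1 hP1
      rw [hn]
      exact mem_image_of_mem _ (mem_range.2 ((hfr P n hn).2 hP2))
    have h2 := card_le_card h1
    rw [card_image_of_injective _ hf] at h2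
    exact h2.trans (card_image_le.trans (by simp))
  have hcard := hc.card_eq
  rw [← mul_sum] at hsum
  refine ⟨A, Q, B, hc, hW, hB.trans hbadQ, fun P hP => (mem_filter.1 (hB hP)).2, ?_⟩
  omega

end Pool.Agent.TD5
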