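import Pool.Agent.TD5.Key

set_option autoImplicit false

namespace Pool.Agent.TD5

open Finset

variable {ι V : Type*} [DecidableEq ι] [DecidableEq V] {e : ι → Finset V}

/-! ### Families of separated sets -/

theorem Cert.sep {X A : Finset ι} {Q : Finset (Finset ι)} (h : Cert e X A Q) {P P' : Finset ι}
    (hP : P ∈ Q) (hP' : P' ∈ Q) (hne : P ≠ P') : Sep e P P' :=
  (h.closed P hP).mono (Subset.refl _) (fun i hi => mem_sdiff.2 ⟨h.mem P' hP' hi,
    fun h' => disjoint_left.1 (h.disj P hP P' hP' hne) h' hi⟩)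

theorem sep_biUnion {P : Finset ι} {B : Finset (Finset ι)} (h : ∀ P' ∈ B, Sep e P P') :
    Sep e P (B.biUnion id) := by
  rw [sep_iff]
  intro i hi j hj
  obtain ⟨P', hP', hjP⟩ := mem_biUnion.1 hj
  exact sep_iff.1 (h P' hP') i hi j hjP

theorem pack_cols (hne : ∀ i, (e i).Nonempty) (B : Finset (Finset ι))
    (hs : ∀ P ∈ B, ∀ P' ∈ B, P ≠ P' → Sep e P P') :
    (cols e (B.biUnion id)).card = ∑ P ∈ B, (cols e P).card ∧
      ∑ P ∈ B, nu e P ≤ nu e (B.biUnion id) ∧ (B.biUnion id).card = ∑ P ∈ B, P.card := by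
  induction B using Finset.induction_on with
  | empty => simp [cols]
  | insert P s hP ih =>
    obtain ⟨h1, h2, h3⟩ := ih (fun P' hP' P'' hP'' hn =>
      hs P' (mem_insert_of_mem hP') P'' (mem_insert_of_mem hP'') hn)
    have h4 : Sep e P (s.biUnion id) := by
      apply sep_biUnion
      intro P' hP'
      apply hs P (mem_insert_self _ _) P' (mem_insert_of_mem hP')
      rintro rfl
      exact hP hP'
    have h5 : (insert P s).biUnion id = P ∪ s.biUnion id := by
      rw [biUnion_insert]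
      rfl
    rw [h5, sum_insert hP, sum_insert hP, sum_insert hP, h4.card_cols,
      card_union_of_disjoint (h4.disj hne), h1, h3]
    refine ⟨rfl, ?_, rfl⟩
    exact (Nat.add_le_add_left h2 _).trans (nu_add hne h4)

theorem gather (hne : ∀ i, (e i).Nonempty) (B : Finset (Finset ι))
    (hs : ∀ P ∈ B, ∀ P' ∈ B, P ≠ P' → Sep e P P')
    (hv : ∀ P ∈ B, 8 * P.card + 13 ≤ 6 * (cols e P).card + nu e P) :
    13 * B.card + 8 * (B.biUnion id).card ≤ 6 * (cols e (B.biUnion id)).card +
      nu e (B.biUnion id) := by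
  obtain ⟨h1, h2, h3⟩ := pack_cols hne B hs
  have h4 := sum_le_sum hv
  rw [sum_add_distrib, sum_add_distrib, ← mul_sum, ← mul_sum, sum_const, smul_eq_mul] at h4
  rw [h1, h3]
  omega

theorem sep_rest {R A : Finset ι} {Q B : Finset (Finset ι)} (hc : Cert e R A Q) (hB : B ⊆ Q)
    {P : Finset ι} (hP : P ∈ B) : Sep e P ((R \ P) \ nA e A B) := by
  rw [sep_iff]
  intro i hi j hj
  obtain ⟨h1, h2⟩ := mem_sdiff.1 hj
  obtain ⟨h3, h4⟩ := mem_sdiff.1 h1
  by_cases hjA : j ∈ A
  · by_contra hcon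
    apply h2
    rw [mem_nA]
    exact ⟨hjA, P, hP, fun hs => hcon (sep_iff.1 hs i hi j (mem_singleton_self j))⟩
  · exact sep_iff.1 (hc.closed P (hB hP)) i hi j (mem_sdiff.2 ⟨mem_sdiff.2 ⟨h3, hjA⟩, h4⟩)

theorem sep_all {R A : Finset ι} {Q B : Finset (Finset ι)} (hc : Cert e R A Q) (hB : B ⊆ Q) :
    Sep e (B.biUnion id) ((R \ B.biUnion id) \ nA e A B) := by
  apply Sep.symm
  apply sep_biUnion
  intro P hP
  refine ((sep_rest hc hB hP).mono (Subset.refl _) ?_).symm
  apply sdiff_subset_sdiff _ (Subset.refl _)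
  exact sdiff_subset_sdiff (Subset.refl _) (subset_biUnion_of_mem id hP)

theorem card_all {R A : Finset ι} {Q B : Finset (Finset ι)} (hc : Cert e R A Q) (hB : B ⊆ Q) :
    R.card = (B.biUnion id).card + (nA e A B).card +
      ((R \ B.biUnion id) \ nA e A B).card := by
  have h1 : B.biUnion id ⊆ R \ A := biUnion_subset.2 (fun P hP => hc.mem P (hB hP))
  have h2 : nA e A B ⊆ A := filter_subset _ _
  have h3 : nA e A B ⊆ R \ B.biUnion id := by
    intro i hi
    rw [mem_sdiff]
    refine ⟨hc.sub (h2 hi), ?_⟩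
    intro hcon
    exact (mem_sdiff.1 (h1 hcon)).2 (h2 hi)
  have h4 := card_sdiff_add_card_eq_card h3
  have h5 := card_sdiff_add_card_eq_card (h1.trans sdiff_subset)
  omega

theorem three_cols (h4 : ∀ i, 4 ≤ (e i).card) {W X : Finset ι}
    (hD : ∀ x, (rho e W x).card ≤ 3) (hX : X ⊆ W) : 4 * X.card ≤ 3 * (cols e X).card :=
  count h4 (k := 2) (fun x => (card_le_card (rho_mono hX x)).trans (hD x))

theorem nonempty_of_four (h4 : ∀ i, 4 ≤ (e i).card) (i : ι) : (e i).Nonempty :=
  card_pos.1 (by have := h4 i; omega)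

/-! ### The minimal counterexample -/

/-- `W` is a minimal counterexample. -/
structure Ctx (e : ι → Finset V) (W : Finset ι) : Prop where
  h4 : ∀ i, 4 ≤ (e i).card
  hD : ∀ x, (rho e W x).card ≤ 3
  ih : ∀ X, X ⊆ W → X ≠ W → 26 * tau e X ≤ 5 * X.card + 6 * (cols e X).card + nu e X
  neg : 5 * W.card + 6 * (cols e W).card + nu e W < 26 * tau e W

variable {W : Finset ι}

theorem Ctx.hne (h : Ctx e W) (i : ι) : (e i).Nonempty := nonempty_of_four h.h4 i

theorem Ctx.tau_eq (h : Ctx e W) : 2 * tau e W = W.card + 1 := by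
  obtain ⟨A, Q, B, hc, hW, hB, hbad, hk⟩ := key_cover h.hne W
  by_cases hWB : W ∈ B
  · have h1 : B ⊆ {W} := by
      intro P hP
      rw [mem_singleton]
      by_contra hcon
      obtain ⟨i, hi⟩ := hc.nonempty (hB hP)
      have h2 := hc.disj P (hB hP) W (hB hWB) hcon
      exact disjoint_left.1 h2 hi (mem_sdiff.1 (hc.mem P (hB hP) hi)).1
    have h2 := card_le_card h1
    rw [card_singleton] at h2
    have h3 := hbad W hWB
    omega
  · exfalso
    have hv : ∀ P ∈ B, 8 * P.card + 13 ≤ 6 * (cols e P).card + nu e P := by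
      intro P hP
      have h1 := h.ih P ((hc.mem P (hB hP)).trans sdiff_subset)
        (fun hcon => hWB (hcon ▸ hP))
      have h2 := hbad P hP
      omega
    have h1 := gather h.hne B (fun P hP P' hP' hn => hc.sep (hB hP) (hB hP') hn) hv
    have h2 := sep_all hc hB
    have h3 := card_all hc hB
    have hsub : B.biUnion id ∪ ((W \ B.biUnion id) \ nA e A B) ⊆ W := by
      apply union_subset
      · exact biUnion_subset.2 (fun P hP => (hc.mem P (hB hP)).trans sdiff_subset)
      · exact sdiff_subset.trans sdiff_subset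
    have h5 := three_cols h.h4 h.hD
      (show (W \ B.biUnion id) \ nA e A B ⊆ W from sdiff_subset.trans sdiff_subset)
    have h6 := h2.card_cols
    have h7 := card_le_card (cols_mono (e := e) hsub)
    have h8 := nu_add h.hne h2
    have h9 := nu_mono (e := e) hsub
    have h10 := h.neg
    omega

theorem Ctx.val_le (h : Ctx e W) : 6 * (cols e W).card + nu e W ≤ 8 * W.card + 12 := by
  have h1 := h.tau_eq
  have h2 := h.neg
  omega

theorem Ctx.not_split (h : Ctx e W) {X : Finset ι} (hX : X ⊆ W) (h1 : X.Nonempty)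
    (h2 : X ≠ W) (hs : Sep e X (W \ X)) : False := by
  have h3 := h.ih X hX h2
  have h4 : W \ X ≠ W := by
    obtain ⟨i, hi⟩ := h1
    intro hcon
    have := hX hi
    rw [← hcon] at this
    exact (mem_sdiff.1 this).2 hi
  have h5 := h.ih (W \ X) sdiff_subset h4
  have h6 : X ∪ (W \ X) = W := union_sdiff_of_subset hX
  have h7 := tau_union h.hne X (W \ X)
  have h8 := hs.card_cols
  have h9 := nu_add h.hne hs
  have h10 := card_sdiff_add_card_eq_card hX
  have h11 := h.neg
  rw [h6] at h7 h8 h9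
  omega

/-! ### Sides -/

/-- A set that is not the union of two separated nonempty sets. -/
def Conn (e : ι → Finset V) (P : Finset ι) : Prop :=
  ∀ X ⊆ P, X.Nonempty → X ≠ P → ¬ Sep e X (P \ X)

theorem exists_min_closed (hne : ∀ i, (e i).Nonempty) {R P0 : Finset ι}
    (hs : Sep e P0 (R \ P0)) (hb : P0.card + 1 ≤ 2 * tau e P0) :
    ∃ P ⊆ P0, Sep e P (R \ P) ∧ P.card + 1 ≤ 2 * tau e P ∧ Conn e P := by
  classical
  obtain ⟨P, hP, hmin⟩ := exists_min_image
    (P0.powerset.filter (fun P => Sep e P (R \ P) ∧ P.card + 1 ≤ 2 * tau e P)) card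
    ⟨P0, mem_filter.2 ⟨mem_powerset.2 (Subset.refl _), hs, hb⟩⟩
  obtain ⟨h1, h2, h3⟩ := mem_filter.1 hP
  rw [mem_powerset] at h1
  refine ⟨P, h1, h2, h3, ?_⟩
  intro X hX hXne hXP hsep
  have hXR : Sep e X (R \ X) := by
    have h5 : R \ X ⊆ (P \ X) ∪ (R \ P) := by
      intro i hi
      rw [mem_union, mem_sdiff, mem_sdiff]
      rw [mem_sdiff] at hi
      by_cases h : i ∈ P
      · exact Or.inl ⟨h, hi.2⟩
      · exact Or.inr ⟨hi.1, h⟩
    exact (hsep.union_right (h2.mono hX (Subset.refl _))).mono (Subset.refl _) h5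
  have hYR : Sep e (P \ X) (R \ (P \ X)) := by
    have h5 : R \ (P \ X) ⊆ X ∪ (R \ P) := by
      intro i hi
      rw [mem_union, mem_sdiff]
      rw [mem_sdiff, mem_sdiff, not_and_or, not_not] at hi
      tauto
    exact (hsep.symm.union_right (h2.mono sdiff_subset (Subset.refl _))).mono (Subset.refl _) h5
  have hcard := card_sdiff_add_card_eq_card hX
  have hXpos := card_pos.2 hXne
  have hYpos : 0 < (P \ X).card := by
    rw [card_pos]
    rw [sdiff_nonempty]
    intro hcon
    exact hXP (Subset.antisymm hX hcon)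
  have htau := tau_union hne X (P \ X)
  rw [union_sdiff_of_subset hX] at htau
  rcases le_or_gt (X.card + 1) (2 * tau e X) with h5 | h5
  · have := hmin X (mem_filter.2 ⟨mem_powerset.2 (hX.trans h1), hXR, h5⟩)
    omega
  · have h6 : (P \ X).card + 1 ≤ 2 * tau e (P \ X) := by omega
    have := hmin (P \ X) (mem_filter.2 ⟨mem_powerset.2 (sdiff_subset.trans h1), hYR, h6⟩)
    omega

/-- A separated part of `R`. -/
structure Side (e : ι → Finset V) (R P : Finset ι) : Prop where
  sub : P ⊆ R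
  closed : Sep e P (R \ P)
  conn : Conn e P
  tau_eq : 2 * tau e P = P.card + 1
  val_le : 6 * (cols e P).card + nu e P ≤ 8 * P.card + 17
  le_val : 8 * P.card + 13 ≤ 6 * (cols e P).card + nu e P

/-- The decomposition of a set without the edges at a vertex. -/
structure Dec (e : ι → Finset V) (W : Finset ι) (v : V) (P P' : Finset ι) : Prop where
  triple : (rho e W v).card = 3
  s1 : Side e (W \ rho e W v) P
  s2 : Side e (W \ rho e W v) P'
  disj : Disjoint P P'
  bound : 6 * (cols e P).card + 6 * (cols e P').card +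
    6 * (cols e ((W \ rho e W v) \ (P ∪ P'))).card + nu e P + nu e P' +
    nu e ((W \ rho e W v) \ (P ∪ P')) ≤ 8 * P.card + 8 * P'.card +
    8 * ((W \ rho e W v) \ (P ∪ P')).card + 30
  cols_eq : cols e W = insert v (cols e (W \ rho e W v))

theorem Dec.symm {v : V} {P P' : Finset ι} (h : Dec e W v P P') : Dec e W v P' P := by
  refine ⟨h.triple, h.s2, h.s1, h.disj.symm, ?_, h.cols_eq⟩
  have := h.bound
  rw [union_comm P' P]
  omega

theorem Side.nonempty {R P : Finset ι} (h : Side e R P) : P.Nonempty := by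
  rw [nonempty_iff_ne_empty]
  rintro rfl
  have := h.tau_eq
  rw [tau_empty, card_empty] at this
  omega

theorem Dec.sep {v : V} {P P' : Finset ι} (h : Dec e W v P P') : Sep e P P' :=
  h.s1.closed.mono (Subset.refl _) (fun _ hi => mem_sdiff.2 ⟨h.s2.sub hi,
    fun h' => disjoint_left.1 h.disj h' hi⟩)

theorem exists_dec (h : Ctx e W) {v : V} (hv : (rho e W v).card = 3) :
    ∃ P P', Dec e W v P P' := by
  set R := W \ rho e W v with hR
  have hRW : R ⊆ W := sdiff_subset
  have hRc : R.card + 3 = W.card := by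
    have := card_sdiff_add_card_eq_card (rho_sub (e := e) W v)
    rw [← hR, hv] at this
    exact this
  have htau : tau e W ≤ tau e R + 1 := by
    have h1 : W ⊆ R ∪ rho e W v := by
      intro i hi
      rw [mem_union, hR, mem_sdiff]
      tauto
    have h2 := tau_le_of_subset h.hne h1
    have h3 := tau_le_one (e := e) (W := rho e W v) v (fun i hi => (mem_rho.1 hi).2)
    omega
  have hvR : v ∉ cols e R := by
    intro hcon
    obtain ⟨i, hi, hvi⟩ := mem_cols.1 hcon
    obtain ⟨h1, h2⟩ := mem_sdiff.1 hi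
    exact h2 (mem_rho.2 ⟨h1, hvi⟩)
  have hvW : v ∈ cols e W := by
    have : (rho e W v).Nonempty := card_pos.1 (by omega)
    obtain ⟨i, hi⟩ := this
    exact mem_cols.2 ⟨i, (mem_rho.1 hi).1, (mem_rho.1 hi).2⟩
  have hcolsub : insert v (cols e R) ⊆ cols e W := insert_subset hvW (cols_mono hRW)
  have hcol : (cols e R).card + 1 ≤ (cols e W).card := by
    have := card_le_card hcolsub
    rwa [card_insert_of_notMem hvR] at this
  obtain ⟨A, Q, B, hc, hW, hB, hbad, hk⟩ := key_cover h.hne R
  have hPR : ∀ P ∈ B, P ⊆ R := fun P hP => (hc.mem P (hB hP)).trans sdiff_subset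
  have hne' : ∀ X ⊆ R, X ≠ W := by
    rintro X hX rfl
    have := card_le_card hX
    omega
  have hval : ∀ X ⊆ R, X.card + 1 ≤ 2 * tau e X →
      8 * X.card + 13 ≤ 6 * (cols e X).card + nu e X := by
    intro X hX hb
    have h1 := h.ih X (hX.trans hRW) (hne' X hX)
    omega
  have h1 := gather h.hne B (fun P hP P' hP' hn => hc.sep (hB hP) (hB hP') hn)
    (fun P hP => hval P (hPR P hP) (hbad P hP))
  have h2 := sep_all hc hB
  have h3 := card_all hc hB
  have hsub : B.biUnion id ∪ ((R \ B.biUnion id) \ nA e A B) ⊆ R := by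
    apply union_subset
    · exact biUnion_subset.2 hPR
    · exact sdiff_subset.trans sdiff_subset
  have h5 := three_cols h.h4 h.hD
    (show (R \ B.biUnion id) \ nA e A B ⊆ W from sdiff_subset.trans (sdiff_subset.trans hRW))
  have h6 := h2.card_cols
  have h7 := card_le_card (cols_mono (e := e) hsub)
  have h8 := nu_add h.hne h2
  have h9 := nu_mono (e := e) (hsub.trans hRW)
  have h10 := h.tau_eq
  have h11 := h.val_le
  have hN : (nA e A B).card = 0 := by omega
  have hB2 : B.card = 2 := by omega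
  have hcolW : (cols e W).card ≤ (cols e R).card + 1 := by omega
  rw [card_eq_zero] at hN
  obtain ⟨P0, P0', hPP, hBeq⟩ := card_eq_two.1 hB2
  have hP0 : P0 ∈ B := by rw [hBeq]; simp
  have hP0' : P0' ∈ B := by rw [hBeq]; simp
  have hcl : ∀ P ∈ B, Sep e P (R \ P) := by
    intro P hP
    have := sep_rest hc hB hP
    rwa [hN, sdiff_empty] at this
  obtain ⟨P, hPP0, hPs, hPb, hPc⟩ := exists_min_closed h.hne (hcl P0 hP0)
    (hbad P0 hP0)
  obtain ⟨P', hPP0', hPs', hPb', hPc'⟩ := exists_min_closed h.hne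
    (hcl P0' hP0') (hbad P0' hP0')
  have hPR1 : P ⊆ R := hPP0.trans (hPR P0 hP0)
  have hPR1' : P' ⊆ R := hPP0'.trans (hPR P0' hP0')
  have hdisj : Disjoint P P' := by
    apply disjoint_of_subset_left hPP0
    apply disjoint_of_subset_right hPP0'
    exact hc.disj P0 (hB hP0) P0' (hB hP0') hPP
  have hsep : Sep e P P' := hPs.mono (Subset.refl _) (fun _ hi => mem_sdiff.2 ⟨hPR1' hi,
    fun h' => disjoint_left.1 hdisj h' hi⟩)
  set Y := R \ (P ∪ P') with hY
  have hsepY : Sep e (P ∪ P') Y := by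
    apply Sep.union_left
    · exact hPs.mono (Subset.refl _) (sdiff_subset_sdiff (Subset.refl _) subset_union_left)
    · exact hPs'.mono (Subset.refl _) (sdiff_subset_sdiff (Subset.refl _) subset_union_right)
  have hRU : (P ∪ P') ∪ Y = R := union_sdiff_of_subset (union_subset hPR1 hPR1')
  have k1 := hsepY.card_cols
  have k2 := hsep.card_cols
  have k3 := nu_add h.hne hsepY
  have k4 := nu_add h.hne hsep
  have k5 := card_sdiff_add_card_eq_card (union_subset hPR1 hPR1')
  have k6 := card_union_of_disjoint hdisj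
  have k7 := three_cols h.h4 h.hD (show Y ⊆ W from sdiff_subset.trans hRW)
  have k8 := hval P hPR1 hPb
  have k9 := hval P' hPR1' hPb'
  have k10 := nu_mono (e := e) hRW
  have k11 := h.ih P (hPR1.trans hRW) (hne' P hPR1)
  have k12 := h.ih P' (hPR1'.trans hRW) (hne' P' hPR1')
  rw [hRU] at k1 k3
  rw [← hY] at k5
  refine ⟨P, P', ⟨hv, ⟨hPR1, hPs, hPc, ?_, ?_, k8⟩, ⟨hPR1', hPs', hPc', ?_, ?_, k9⟩, hdisj, ?_,
    ?_⟩⟩
  · omega
  · omega
  · omega
  · omega
  · rw [← hR, ← hY]
    omega
  · apply (eq_of_subset_of_card_le hcolsub _).symm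
    rw [card_insert_of_notMem hvR]
    exact hcolW

end Pool.Agent.TD5
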