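import Pool.Agent.TD5.Main

set_option autoImplicit false

namespace Pool.Agent.TD5

open Finset

variable {ι V : Type*} [DecidableEq ι] [DecidableEq V] {e : ι → Finset V} {W : Finset ι}

theorem Dec.side_sub {v : V} {P P' : Finset ι} (hd : Dec e W v P P') : P ⊆ W :=
  hd.s1.sub.trans sdiff_subset

theorem Dec.side_ne {v : V} {P P' : Finset ι} (hd : Dec e W v P P') {X : Finset ι}
    (hX : X ⊆ W \ rho e W v) : X ≠ W := by
  rintro rfl
  have h1 := card_le_card hX
  have h2 := card_sdiff_add_card_eq_card (rho_sub (e := e) X v)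
  have h3 := hd.triple
  omega

/-- Adding an adjacent edge to a side. -/
theorem Dec.adj (h : Ctx e W) {v : V} {P P' : Finset ι} (hd : Dec e W v P P') {t : ι}
    (ht : ¬ Sep e P {t}) : 2 * tau e (P ∪ {t}) ≤ P.card + 1 := by
  apply tau_erase_insert h.hne _ ht
  intro i hi
  have h1 : P.erase i ⊆ W \ rho e W v := (erase_subset _ _).trans hd.s1.sub
  have h2 := h.ih (P.erase i) (h1.trans sdiff_subset) (hd.side_ne h1)
  have h3 := card_erase_add_one hi
  have h4 := card_le_card (cols_mono (e := e) (erase_subset i P))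
  have h5 := nu_mono (e := e) (erase_subset i P)
  have h6 := hd.s1.tau_eq
  have h7 := hd.s1.val_le
  omega

/-- The edges at `v` that are adjacent to `P`. -/
def adjT (e : ι → Finset V) (W : Finset ι) (v : V) (P : Finset ι) : Finset ι :=
  (rho e W v).filter (fun t => ¬ Disjoint (cols e P) (cols e {t}))

theorem mem_adjT {v : V} {P : Finset ι} {t : ι} :
    t ∈ adjT e W v P ↔ t ∈ rho e W v ∧ ¬ Sep e P {t} := by
  rw [adjT, mem_filter]
  rfl

theorem Dec.two_adj (h : Ctx e W) {v : V} {P P' : Finset ι} (hd : Dec e W v P P') :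
    2 ≤ (adjT e W v P).card := by
  by_contra hlt
  push Not at hlt
  set S := adjT e W v P with hS
  have hSsub : S ⊆ rho e W v := filter_subset _ _
  have hPS : Disjoint P S := by
    refine disjoint_left.2 ?_
    intro i hi hi'
    exact (mem_sdiff.1 (hd.s1.sub hi)).2 (hSsub hi')
  have hPSW : P ∪ S ⊆ W := union_subset hd.side_sub (hSsub.trans (rho_sub W v))
  set X := W \ (P ∪ S) with hX
  have hsep : Sep e P X := by
    rw [sep_iff]
    intro i hi j hj
    rw [hX, mem_sdiff, mem_union, not_or] at hj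
    obtain ⟨hjW, hjP, hjS⟩ := hj
    by_cases hjr : j ∈ rho e W v
    · by_contra hcon
      apply hjS
      rw [hS, mem_adjT]
      exact ⟨hjr, fun hs => hcon (sep_iff.1 hs i hi j (mem_singleton_self j))⟩
    · exact sep_iff.1 hd.s1.closed i hi j (mem_sdiff.2 ⟨mem_sdiff.2 ⟨hjW, hjr⟩, hjP⟩)
  have hXW : X ⊆ W := sdiff_subset
  have k1 := card_sdiff_add_card_eq_card hPSW
  have k2 := card_union_of_disjoint hPS
  have k3 := hsep.card_cols
  have k4 := nu_add h.hne hsep
  have k5 := card_le_card (cols_mono (e := e) (union_subset hd.side_sub hXW))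
  have k6 := nu_mono (e := e) (union_subset hd.side_sub hXW)
  have k7 := h.val_le
  have k8 := hd.s1.le_val
  have k9 := hd.s1.tau_eq
  have k10 := h.tau_eq
  have k11 := card_pos.2 hd.s1.nonempty
  have hXne : X ≠ W := by
    intro hcon
    rw [← hX, hcon] at k1
    omega
  have k12 := h.ih X hXW hXne
  rw [← hX] at k1
  have hcase : S.card = 0 ∨ S.card = 1 := by omega
  rcases hcase with hS0 | hS1
  · have h0 := card_eq_zero.1 hS0
    have h1 : W ⊆ P ∪ X := by
      intro i hi
      rw [hX, h0, union_empty, mem_union, mem_sdiff]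
      tauto
    have h2 := tau_le_of_subset h.hne h1
    omega
  · obtain ⟨p, hp⟩ := card_eq_one.1 hS1
    have hpS : p ∈ S := by rw [hp]; exact mem_singleton_self p
    rw [hS, mem_adjT] at hpS
    have h1 : W ⊆ (P ∪ {p}) ∪ X := by
      intro i hi
      rw [hX, hp, mem_union, mem_sdiff]
      tauto
    have h2 := tau_le_of_subset h.hne h1
    have h3 := hd.adj h hpS.2
    omega

theorem not_disj {i j : ι} {x : V} (hi : x ∈ e i) (hj : x ∈ e j) : ¬ Disjoint (e i) (e j) :=
  fun h => disjoint_left.1 h hi hj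

theorem not_sep' {P Q : Finset ι} {i j : ι} {x : V} (hP : i ∈ P) (hQ : j ∈ Q) (hi : x ∈ e i)
    (hj : x ∈ e j) : ¬ Sep e P Q := fun h => not_disj hi hj (sep_iff.1 h i hP j hQ)

/-- The edges at a vertex of a side. -/
theorem Dec.rho_side {v : V} {P P' : Finset ι} (hd : Dec e W v P P') {x : V}
    (hx : x ∈ cols e P) : rho e W x ⊆ rho e P x ∪ (rho e W x ∩ rho e W v) := by
  intro i hi
  obtain ⟨hiW, hxi⟩ := mem_rho.1 hi
  rw [mem_union, mem_inter]
  by_cases hiv : i ∈ rho e W v
  · exact Or.inr ⟨hi, hiv⟩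
  · left
    rw [mem_rho]
    refine ⟨?_, hxi⟩
    by_contra hiP
    obtain ⟨j, hj, hxj⟩ := mem_cols.1 hx
    exact not_sep' hj (mem_sdiff.2 ⟨mem_sdiff.2 ⟨hiW, hiv⟩, hiP⟩) hxj hxi hd.s1.closed

/-- A side with at least three edges has a good column. -/
theorem Dec.exists_col (h : Ctx e W) {v : V} {P P' : Finset ι} (hd : Dec e W v P P')
    (h3 : 3 ≤ P.card) : ∃ x ∈ cols e P, (rho e W x).card = 3 ∧
      (rho e W x ∩ rho e W v).card ≤ 1 := by
  by_contra hcon
  push Not at hcon
  have hle : ∀ x ∈ cols e P, (rho e P x).card + (rho e W x ∩ rho e W v).card ≤ 3 := by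
    intro x hx
    have h1 : rho e P x ∪ (rho e W x ∩ rho e W v) ⊆ rho e W x :=
      union_subset (rho_mono hd.side_sub x) inter_subset_left
    have h2 : Disjoint (rho e P x) (rho e W x ∩ rho e W v) := by
      refine disjoint_left.2 ?_
      intro i hi hi'
      exact (mem_sdiff.1 (hd.s1.sub (rho_sub P x hi))).2 (mem_inter.1 hi').2
    have h3 := card_le_card h1
    rw [card_union_of_disjoint h2] at h3
    exact h3.trans (h.hD x)
  have hge : ∀ x ∈ cols e P, (rho e W x).card ≤
      (rho e P x).card + (rho e W x ∩ rho e W v).card := fun x hx =>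
    (card_le_card (hd.rho_side hx)).trans (card_union_le _ _)
  have hP2 : ∀ x, (rho e P x).card ≤ 2 := by
    intro x
    by_cases hx : x ∈ cols e P
    · have h1 := hle x hx
      have h2 := hcon x hx
      have h3 := hge x hx
      have h4 := card_le_card (rho_mono (e := e) hd.side_sub x)
      by_contra hc
      push Not at hc
      have := h2 (by omega)
      omega
    · have : rho e P x = ∅ := by
        apply eq_empty_of_forall_notMem
        intro i hi
        exact hx (mem_cols.2 ⟨i, (mem_rho.1 hi).1, (mem_rho.1 hi).2⟩)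
      rw [this, card_empty]
      omega
  obtain ⟨t, ht⟩ : (adjT e W v P).Nonempty := card_pos.1 (by have := hd.two_adj h; omega)
  obtain ⟨ht1, ht2⟩ := mem_adjT.1 ht
  obtain ⟨x, i, hi, j, hj, hxi, hxj⟩ := not_sep ht2
  rw [mem_singleton] at hj
  subst hj
  have hxP : x ∈ cols e P := mem_cols.2 ⟨i, hi, hxi⟩
  have hx1 : (rho e P x).card ≤ 1 := by
    have h1 := hle x hxP
    have h2 := hcon x hxP
    have h4 : 0 < (rho e W x ∩ rho e W v).card := by
      rw [card_pos]
      exact ⟨j, mem_inter.2 ⟨mem_rho.2 ⟨(mem_rho.1 ht1).1, hxj⟩, ht1⟩⟩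
    by_contra hc
    push Not at hc
    have h5 : (rho e W x).card = 3 := by
      have h6 : rho e P x ∪ (rho e W x ∩ rho e W v) ⊆ rho e W x :=
        union_subset (rho_mono hd.side_sub x) inter_subset_left
      have h7 : Disjoint (rho e P x) (rho e W x ∩ rho e W v) := by
        refine disjoint_left.2 ?_
        intro k hk hk'
        exact (mem_sdiff.1 (hd.s1.sub (rho_sub P x hk))).2 (mem_inter.1 hk').2
      have h8 := card_le_card h6
      rw [card_union_of_disjoint h7] at h8
      have h9 := h.hD x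
      omega
    have := h2 h5
    omega
  have h5 := count_def h.h4 (W := P) (k := 1) hP2 (S := {x}) (singleton_subset_iff.2 hxP)
    (fun y hy => by rw [mem_singleton.1 hy]; exact hx1)
  rw [card_singleton] at h5
  have h6 := hd.s1.val_le
  have h7 := hd.s1.tau_eq
  omega

theorem Dec.descend (h : Ctx e W) {v : V} {P P' : Finset ι} (hd : Dec e W v P P')
    (h3 : 3 ≤ P.card) : ∃ x Q Q', Dec e W x Q Q' ∧ Q ⊆ P ∧ Q.card < P.card := by
  obtain ⟨x, hxP, hx3, hx1⟩ := hd.exists_col h h3
  obtain ⟨Q1, Q2, hq⟩ := exists_dec h hx3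
  -- the part containing the edges at `v` and the other side
  have hP'x : Disjoint P' (rho e W x) := by
    refine disjoint_left.2 ?_
    intro i hi hi'
    obtain ⟨j, hj, hxj⟩ := mem_cols.1 hxP
    exact not_sep' hj hi hxj (mem_rho.1 hi').2 hd.sep
  have hP'R : P' ⊆ W \ rho e W x := fun i hi => mem_sdiff.2 ⟨(mem_sdiff.1 (hd.s2.sub hi)).1,
    fun h' => disjoint_left.1 hP'x hi h'⟩
  have hadj : ∃ t ∈ rho e W v \ rho e W x, ¬ Sep e P' {t} := by
    have h1 := hd.symm.two_adj h
    have h2 : ¬ adjT e W v P' ⊆ rho e W x ∩ rho e W v := by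
      intro hcon
      have := card_le_card hcon
      omega
    obtain ⟨t, ht, ht'⟩ := not_subset.1 h2
    obtain ⟨ht1, ht2⟩ := mem_adjT.1 ht
    exact ⟨t, mem_sdiff.2 ⟨ht1, fun h' => ht' (mem_inter.2 ⟨h', ht1⟩)⟩, ht2⟩
  obtain ⟨t, ht, hadjt⟩ := hadj
  obtain ⟨htv, htx⟩ := mem_sdiff.1 ht
  have htR : t ∈ W \ rho e W x := mem_sdiff.2 ⟨(mem_rho.1 htv).1, htx⟩
  -- a side meeting the other side contains it
  have hcon1 : ∀ Q, Side e (W \ rho e W x) Q → ¬ Disjoint Q P' → t ∈ Q := by
    intro Q hQ hm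
    have h1 : P' ⊆ Q := by
      by_contra hsub
      obtain ⟨i, hiQ, hiP'⟩ := not_disjoint_iff.1 hm
      refine hd.s2.conn (P' ∩ Q) inter_subset_left ⟨i, mem_inter.2 ⟨hiP', hiQ⟩⟩ ?_ ?_
      · intro heq
        exact hsub (fun j hj => (mem_inter.1 (heq ▸ hj)).2)
      · refine hQ.closed.mono inter_subset_right ?_
        intro j hj
        obtain ⟨hj1, hj2⟩ := mem_sdiff.1 hj
        exact mem_sdiff.2 ⟨hP'R hj1, fun h' => hj2 (mem_inter.2 ⟨hj1, h'⟩)⟩
    by_contra htQ
    exact hadjt (hQ.closed.mono h1 (singleton_subset_iff.2 (mem_sdiff.2 ⟨htR, htQ⟩)))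
  -- a side containing one edge at `v` contains `t`
  have hcon2 : ∀ Q, Side e (W \ rho e W x) Q → ∀ s ∈ rho e W v \ rho e W x, s ∈ Q → t ∈ Q := by
    intro Q hQ s hs hsQ
    by_contra htQ
    exact not_sep' hsQ (mem_sdiff.2 ⟨htR, htQ⟩) (mem_rho.1 (mem_sdiff.1 hs).1).2
      (mem_rho.1 htv).2 hQ.closed
  have hfin : ∀ Q Q', Dec e W x Q Q' → t ∉ Q → ∃ x Q Q', Dec e W x Q Q' ∧ Q ⊆ P ∧
      Q.card < P.card := by
    intro Q Q' hQd htQ
    have hQ := hQd.s1
    have h1 : Disjoint Q P' := by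
      by_contra hcon
      exact htQ (hcon1 Q hQ hcon)
    have h2 : ∀ s ∈ Q, s ∉ rho e W v := by
      intro s hs hsv
      exact htQ (hcon2 Q hQ s (mem_sdiff.2 ⟨hsv, (mem_sdiff.1 (hQ.sub hs)).2⟩) hs)
    have h3 : Q ⊆ W \ rho e W v := fun s hs => mem_sdiff.2 ⟨(mem_sdiff.1 (hQ.sub hs)).1, h2 s hs⟩
    set Y := (W \ rho e W v) \ (P ∪ P') with hY
    by_cases hQP : Q ⊆ P
    · refine ⟨x, Q, Q', hQd, hQP, ?_⟩
      apply card_lt_card
      rw [ssubset_iff_subset_ne]
      refine ⟨hQP, ?_⟩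
      rintro rfl
      obtain ⟨j, hj, hxj⟩ := mem_cols.1 hxP
      have h4 := mem_sdiff.1 (hQ.sub hj)
      exact h4.2 (mem_rho.2 ⟨h4.1, hxj⟩)
    · exfalso
      have h4 : Q ∩ P = ∅ := by
        by_contra hcon
        obtain ⟨i, hi⟩ := nonempty_iff_ne_empty.2 hcon
        refine hQ.conn (Q ∩ P) inter_subset_left ⟨i, hi⟩ ?_ ?_
        · intro heq
          exact hQP (fun j hj => (mem_inter.1 (heq ▸ hj)).2)
        · refine hd.s1.closed.mono inter_subset_right ?_
          intro j hj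
          obtain ⟨hj1, hj2⟩ := mem_sdiff.1 hj
          exact mem_sdiff.2 ⟨h3 hj1, fun h' => hj2 (mem_inter.2 ⟨hj1, h'⟩)⟩
      have h5 : Q ⊆ Y := by
        intro j hj
        rw [hY, mem_sdiff, mem_union, not_or]
        refine ⟨h3 hj, ?_, ?_⟩
        · intro hjP
          have : j ∈ Q ∩ P := mem_inter.2 ⟨hj, hjP⟩
          rw [h4] at this
          exact notMem_empty _ this
        · intro hjP
          exact disjoint_left.1 h1 hj hjP
      have hYx : Y \ Q ⊆ (W \ rho e W x) \ Q := by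
        intro j hj
        obtain ⟨hj1, hj2⟩ := mem_sdiff.1 hj
        rw [hY] at hj1
        obtain ⟨hj3, hj4⟩ := mem_sdiff.1 hj1
        obtain ⟨hj5, hj6⟩ := mem_sdiff.1 hj3
        refine mem_sdiff.2 ⟨mem_sdiff.2 ⟨hj5, ?_⟩, hj2⟩
        intro hjx
        obtain ⟨i, hi, hxi⟩ := mem_cols.1 hxP
        refine not_sep' hi (mem_sdiff.2 ⟨hj3, ?_⟩) hxi (mem_rho.1 hjx).2 hd.s1.closed
        intro hjP
        exact hj4 (mem_union_left _ hjP)
      have h6 : Sep e Q (Y \ Q) := hQ.closed.mono (Subset.refl _) hYx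
      have h7 : Q ∪ (Y \ Q) = Y := union_sdiff_of_subset h5
      have h8 := h6.card_cols
      have h9 := nu_add h.hne h6
      have h10 := card_sdiff_add_card_eq_card h5
      rw [h7] at h8 h9
      have h11 := hQ.le_val
      have h12 := hd.bound
      have h13 := hd.s1.le_val
      have h14 := hd.s2.le_val
      have h15 := three_cols h.h4 h.hD (show Y \ Q ⊆ W from
        sdiff_subset.trans (sdiff_subset.trans sdiff_subset))
      rw [← hY] at h12
      omega
  by_cases htQ : t ∈ Q1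
  · apply hfin Q2 Q1 hq.symm
    intro h'
    exact disjoint_left.1 hq.disj htQ h'
  · exact hfin Q1 Q2 hq htQ

/-- Every side contains a side with one edge. -/
theorem Dec.exists_single (h : Ctx e W) (n : ℕ) : ∀ {v : V} {P P' : Finset ι},
    Dec e W v P P' → P.card = n → ∃ l ∈ P, ∃ x P2, Dec e W x {l} P2 := by
  induction n using Nat.strong_induction_on with
  | _ n ih =>
    intro v P P' hd hn
    by_cases h3 : 3 ≤ P.card
    · obtain ⟨x, Q, Q', hq, hQP, hlt⟩ := hd.descend h h3
      obtain ⟨l, hl, x', P2, h1⟩ := ih Q.card (by omega) hq rfl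
      exact ⟨l, hQP hl, x', P2, h1⟩
    · have h1 := hd.s1.tau_eq
      have h2 := card_pos.2 hd.s1.nonempty
      have h4 : P.card = 1 := by omega
      obtain ⟨l, hl⟩ := card_eq_one.1 h4
      refine ⟨l, by rw [hl]; exact mem_singleton_self l, v, P', ?_⟩
      rw [hl] at hd
      exact hd

end Pool.Agent.TD5
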