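import Pool.Agent.TD5.Tutte

set_option autoImplicit false

namespace Pool.Agent.TD5

open Finset

variable {ι V : Type*} [DecidableEq ι] [DecidableEq V] {e : ι → Finset V}

theorem sum_odd (Q : Finset (Finset ι)) (h : ∀ P ∈ Q, Odd P.card) :
    (∑ P ∈ Q, P.card) % 2 = Q.card % 2 := by
  induction Q using Finset.induction_on with
  | empty => rfl
  | insert a s ha ih =>
    rw [sum_insert ha, card_insert_of_notMem ha]
    have h1 := ih (fun P hP => h P (mem_insert_of_mem hP))
    have h2 := h a (mem_insert_self _ _)
    rw [Nat.odd_iff] at h2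
    omega

theorem Cert.biUnion_sub {X B : Finset ι} {Q : Finset (Finset ι)} (h : Cert e X B Q) :
    Q.biUnion id ⊆ X \ B := biUnion_subset.2 h.mem

theorem Cert.card_eq {X B : Finset ι} {Q : Finset (Finset ι)} (h : Cert e X B Q) :
    X.card = B.card + ∑ P ∈ Q, P.card + ((X \ B) \ Q.biUnion id).card := by
  have h1 := card_sdiff_add_card_eq_card h.biUnion_sub
  have h2 := card_sdiff_add_card_eq_card h.sub
  have h3 : (Q.biUnion id).card = ∑ P ∈ Q, P.card := card_biUnion h.disj
  omega

theorem Cert.nonempty {X B : Finset ι} {Q : Finset (Finset ι)} (h : Cert e X B Q)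
    {P : Finset ι} (hP : P ∈ Q) : P.Nonempty := card_pos.1 (h.odd P hP).pos

theorem Cert.add_rest {X B : Finset ι} {Q : Finset (Finset ι)} (h : Cert e X B Q)
    (hR : Odd ((X \ B) \ Q.biUnion id).card) :
    Cert e X B (insert ((X \ B) \ Q.biUnion id) Q) ∧
      (insert ((X \ B) \ Q.biUnion id) Q).card = Q.card + 1 := by
  set R := (X \ B) \ Q.biUnion id with hRdef
  have hRne : R.Nonempty := card_pos.1 hR.pos
  have hnot : ∀ P ∈ Q, Disjoint R P := by
    intro P hP
    refine disjoint_left.2 ?_
    intro i hi hiP
    exact (mem_sdiff.1 hi).2 (mem_biUnion.2 ⟨P, hP, hiP⟩)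
  have hRQ : R ∉ Q := by
    intro hmem
    obtain ⟨i, hi⟩ := hRne
    exact disjoint_left.1 (hnot R hmem) hi hi
  refine ⟨⟨h.sub, ?_, ?_, ?_, ?_⟩, card_insert_of_notMem hRQ⟩
  · intro P hP
    rcases mem_insert.1 hP with rfl | hP
    · exact sdiff_subset
    · exact h.mem P hP
  · intro P hP
    rcases mem_insert.1 hP with rfl | hP
    · exact hR
    · exact h.odd P hP
  · intro P hP
    rcases mem_insert.1 hP with rfl | hP
    · rw [sep_iff]
      intro i hi j hj
      rw [mem_sdiff] at hj
      have hj2 : j ∈ Q.biUnion id := by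
        by_contra hcon
        exact hj.2 (mem_sdiff.2 ⟨hj.1, hcon⟩)
      obtain ⟨P, hP, hjP⟩ := mem_biUnion.1 hj2
      have hs := sep_iff.1 (h.closed P hP) j hjP i (mem_sdiff.2 ⟨(mem_sdiff.1 hi).1,
        fun hiP => disjoint_left.1 (hnot P hP) hi hiP⟩)
      exact hs.symm
    · exact h.closed P hP
  · intro P hP P' hP' hne
    rcases mem_insert.1 hP with rfl | hP <;> rcases mem_insert.1 hP' with rfl | hP'
    · exact absurd rfl hne
    · exact hnot P' hP'
    · exact (hnot P hP).symm
    · exact h.disj P hP P' hP' hne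

/-- The members of `Q` that meet `A`. -/
def nbr (e : ι → Finset V) (Q : Finset (Finset ι)) (A : Finset ι) : Finset (Finset ι) :=
  Q.filter (fun P => ¬ Disjoint (cols e P) (cols e A))

theorem mem_nbr {Q : Finset (Finset ι)} {A P : Finset ι} :
    P ∈ nbr e Q A ↔ P ∈ Q ∧ ¬ Sep e P A := by
  rw [nbr, mem_filter]
  rfl

theorem exists_max (e : ι → Finset V) (W : Finset ι) : ∃ A Q, Cert e W A Q ∧
    ∀ A' Q', Cert e W A' Q' → Q'.card + A.card ≤ Q.card + A'.card ∧
      (Q'.card + A.card = Q.card + A'.card → A'.card ≤ A.card) := by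
  classical
  set C : Finset (Finset ι × Finset (Finset ι)) :=
    (W.powerset ×ˢ W.powerset.powerset).filter (fun p => Cert e W p.1 p.2) with hC
  have hmem : ∀ A Q, Cert e W A Q → (A, Q) ∈ C := by
    intro A Q h
    rw [hC, mem_filter, mem_product, mem_powerset, mem_powerset]
    exact ⟨⟨h.sub, fun P hP => mem_powerset.2 ((h.mem P hP).trans sdiff_subset)⟩, h⟩
  have h0 : Cert e W ∅ ∅ := ⟨by simp, by simp, by simp, by simp, by simp⟩
  obtain ⟨⟨A, Q⟩, hAQ, hmax⟩ := exists_max_image C
    (fun p => (W.card + 1) * (p.2.card + W.card - p.1.card) + p.1.card) ⟨_, hmem _ _ h0⟩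
  have hcert : Cert e W A Q := (mem_filter.1 hAQ).2
  refine ⟨A, Q, hcert, ?_⟩
  intro A' Q' h'
  have h1 := hmax (A', Q') (hmem _ _ h')
  have h2 := card_le_card hcert.sub
  have h3 := card_le_card h'.sub
  simp only at h1
  obtain ⟨a, ha⟩ : ∃ a, Q.card + W.card - A.card = a := ⟨_, rfl⟩
  obtain ⟨a', ha'⟩ : ∃ a', Q'.card + W.card - A'.card = a' := ⟨_, rfl⟩
  rw [ha, ha'] at h1
  constructor
  · by_contra hlt
    push Not at hlt
    have h4 : a + 1 ≤ a' := by omega
    have h5 : (W.card + 1) * (a + 1) ≤ (W.card + 1) * a' := Nat.mul_le_mul_left _ h4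
    have h6 : (W.card + 1) * (a + 1) = (W.card + 1) * a + (W.card + 1) := by ring
    omega
  · intro heq
    have h4 : a = a' := by omega
    rw [h4] at h1
    omega

theorem struct (hne : ∀ i, (e i).Nonempty) (W : Finset ι) : ∃ A Q, Cert e W A Q ∧
    W = A ∪ Q.biUnion id ∧ (∀ A' ⊆ A, A'.card ≤ (nbr e Q A').card) ∧
    ∀ P ∈ Q, ∀ i ∈ P, 2 * tau e (P.erase i) + 1 ≤ P.card := by
  classical
  obtain ⟨A, Q, hc, key⟩ := exists_max e W
  refine ⟨A, Q, hc, ?_, ?_, ?_⟩
  · -- the rest is empty
    have hR : (W \ A) \ Q.biUnion id = ∅ := by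
      by_contra hne'
      obtain ⟨r, hr⟩ := nonempty_iff_ne_empty.2 hne'
      rcases Nat.even_or_odd ((W \ A) \ Q.biUnion id).card with hev | hodd
      · set R := (W \ A) \ Q.biUnion id with hRdef
        have hrA : r ∉ A := (mem_sdiff.1 (mem_sdiff.1 hr).1).2
        have hrW : r ∈ W := (mem_sdiff.1 (mem_sdiff.1 hr).1).1
        have hcardR : (R.erase r).card + 1 = R.card := card_erase_add_one hr
        have hdis : ∀ P ∈ Q, Disjoint R P := by
          intro P hP
          refine disjoint_left.2 ?_
          intro i hi hiP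
          exact (mem_sdiff.1 hi).2 (mem_biUnion.2 ⟨P, hP, hiP⟩)
        have hnotQ : R.erase r ∉ Q := by
          intro hmem
          obtain ⟨i, hi⟩ := hc.nonempty hmem
          exact disjoint_left.1 (hdis _ hmem) (mem_of_mem_erase hi) hi
        have hcert : Cert e W (insert r A) (insert (R.erase r) Q) := by
          refine ⟨?_, ?_, ?_, ?_, ?_⟩
          · exact insert_subset hrW hc.sub
          · intro P hP
            rcases mem_insert.1 hP with rfl | hP
            · intro i hi
              obtain ⟨h1, h2⟩ := mem_erase.1 hi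
              have h3 := mem_sdiff.1 (mem_sdiff.1 h2).1
              rw [mem_sdiff, mem_insert]
              exact ⟨h3.1, fun h => h.elim h1 h3.2⟩
            · intro i hi
              have h3 := mem_sdiff.1 (hc.mem P hP hi)
              have h4 := hdis P hP
              rw [mem_sdiff, mem_insert]
              refine ⟨h3.1, fun h => h.elim ?_ h3.2⟩
              intro hir
              rw [hir] at hi
              exact disjoint_left.1 h4 hr hi
          · intro P hP
            rcases mem_insert.1 hP with rfl | hP
            · rw [Nat.even_iff] at hev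
              rw [Nat.odd_iff]
              omega
            · exact hc.odd P hP
          · intro P hP
            rcases mem_insert.1 hP with rfl | hP
            · rw [sep_iff]
              intro i hi j hj
              obtain ⟨hj1, hj2⟩ := mem_sdiff.1 hj
              obtain ⟨hj3, hj4⟩ := mem_sdiff.1 hj1
              rw [mem_insert, not_or] at hj4
              have hj5 : j ∈ Q.biUnion id := by
                by_contra hcon
                exact hj2 (mem_erase.2 ⟨hj4.1, mem_sdiff.2 ⟨mem_sdiff.2 ⟨hj3, hj4.2⟩, hcon⟩⟩)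
              obtain ⟨P, hP, hjP⟩ := mem_biUnion.1 hj5
              have hiR := mem_of_mem_erase hi
              have hs := sep_iff.1 (hc.closed P hP) j hjP i (mem_sdiff.2
                ⟨(mem_sdiff.1 hiR).1, fun hiP => disjoint_left.1 (hdis P hP) hiR hiP⟩)
              exact hs.symm
            · refine (hc.closed P hP).mono (Subset.refl _) ?_
              exact sdiff_subset_sdiff (sdiff_subset_sdiff (Subset.refl _)
                (subset_insert _ _)) (Subset.refl _)
          · intro P hP P' hP' hne
            rcases mem_insert.1 hP with rfl | hP <;> rcases mem_insert.1 hP' with rfl | hP'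
            · exact absurd rfl hne
            · exact disjoint_of_subset_left (erase_subset _ _) (hdis P' hP')
            · exact (disjoint_of_subset_left (erase_subset _ _) (hdis P hP)).symm
            · exact hc.disj P hP P' hP' hne
        have h1 := (key _ _ hcert).2
        rw [card_insert_of_notMem hrA, card_insert_of_notMem hnotQ] at h1
        omega
      · obtain ⟨h1, h2⟩ := hc.add_rest hodd
        have h3 := (key _ _ h1).1
        omega
    ext i
    constructor
    · intro hi
      by_contra hcon
      rw [mem_union, not_or] at hcon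
      have : i ∈ (W \ A) \ Q.biUnion id := mem_sdiff.2 ⟨mem_sdiff.2 ⟨hi, hcon.1⟩, hcon.2⟩
      rw [hR] at this
      exact notMem_empty _ this
    · intro hi
      rcases mem_union.1 hi with h | h
      · exact hc.sub h
      · exact (mem_sdiff.1 (hc.biUnion_sub h)).1
  · intro A' hA'
    have hcert : Cert e W (A \ A') (Q \ nbr e Q A') := by
      refine ⟨sdiff_subset.trans hc.sub, ?_, ?_, ?_, ?_⟩
      · intro P hP
        exact (hc.mem P (mem_sdiff.1 hP).1).trans (sdiff_subset_sdiff (Subset.refl _) sdiff_subset)
      · intro P hP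
        exact hc.odd P (mem_sdiff.1 hP).1
      · intro P hP
        obtain ⟨h1, h2⟩ := mem_sdiff.1 hP
        have h3 : Sep e P A' := by
          by_contra hcon
          exact h2 (mem_nbr.2 ⟨h1, hcon⟩)
        refine ((hc.closed P h1).union_right h3).mono (Subset.refl _) ?_
        intro j hj
        obtain ⟨h4, h5⟩ := mem_sdiff.1 hj
        obtain ⟨h6, h7⟩ := mem_sdiff.1 h4
        by_cases hjA : j ∈ A'
        · exact mem_union_right _ hjA
        · apply mem_union_left
          rw [mem_sdiff, mem_sdiff]
          exact ⟨⟨h6, fun h => h7 (mem_sdiff.2 ⟨h, hjA⟩)⟩, h5⟩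
      · intro P hP P' hP' hne
        exact hc.disj P (mem_sdiff.1 hP).1 P' (mem_sdiff.1 hP').1 hne
    have h1 := (key _ _ hcert).1
    have h2 := card_sdiff_add_card_eq_card hA'
    have h3 : (nbr e Q A') ⊆ Q := filter_subset _ _
    have h4 := card_sdiff_add_card_eq_card h3
    omega
  · intro P hP i hi
    have hPc : (P.erase i).card + 1 = P.card := card_erase_add_one hi
    rcases tutte_dich hne (P.erase i) with h | ⟨B, Q1, hc1, hlt⟩
    · omega
    exfalso
    -- enlarge the family
    obtain ⟨Q2, hc2, hge⟩ : ∃ Q2, Cert e (P.erase i) B Q2 ∧ B.card + 2 ≤ Q2.card := by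
      by_cases hbig : B.card + 2 ≤ Q1.card
      · exact ⟨Q1, hc1, hbig⟩
      · have heq : Q1.card = B.card + 1 := by omega
        have h1 := hc1.card_eq
        have h2 := sum_odd Q1 hc1.odd
        have h3 := hc.odd P hP
        rw [Nat.odd_iff] at h3
        have hodd : Odd (((P.erase i) \ B) \ Q1.biUnion id).card := by
          rw [Nat.odd_iff]
          omega
        obtain ⟨h4, h5⟩ := hc1.add_rest hodd
        exact ⟨_, h4, by omega⟩
    have hPW : P ⊆ W \ A := hc.mem P hP
    have hBP : B ⊆ P := hc2.sub.trans (erase_subset _ _)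
    have hiB : i ∉ B := fun h => notMem_erase i P (hc2.sub h)
    have hSP : ∀ S ∈ Q2, S ⊆ P := fun S hS =>
      (hc2.mem S hS).trans (sdiff_subset.trans (erase_subset _ _))
    have hiA : i ∉ A := (mem_sdiff.1 (hPW hi)).2
    have hcert : Cert e W (A ∪ insert i B) (Q.erase P ∪ Q2) := by
      refine ⟨?_, ?_, ?_, ?_, ?_⟩
      · apply union_subset hc.sub
        apply insert_subset (mem_sdiff.1 (hPW hi)).1
        exact hBP.trans (hPW.trans sdiff_subset)
      · intro S hS
        rcases mem_union.1 hS with hS | hS
        · obtain ⟨hSne, hSQ⟩ := mem_erase.1 hS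
          intro j hj
          have h1 := mem_sdiff.1 (hc.mem S hSQ hj)
          have h2 : j ∉ P := fun h => disjoint_left.1 (hc.disj S hSQ P hP hSne) hj h
          rw [mem_sdiff, mem_union, mem_insert]
          refine ⟨h1.1, ?_⟩
          rintro (h | rfl | h)
          · exact h1.2 h
          · exact h2 hi
          · exact h2 (hBP h)
        · intro j hj
          have h1 := mem_sdiff.1 (hc2.mem S hS hj)
          have h2 := mem_erase.1 h1.1
          have h3 := mem_sdiff.1 (hPW h2.2)
          rw [mem_sdiff, mem_union, mem_insert]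
          refine ⟨h3.1, ?_⟩
          rintro (h | h | h)
          · exact h3.2 h
          · exact h2.1 h
          · exact h1.2 h
      · intro S hS
        rcases mem_union.1 hS with hS | hS
        · exact hc.odd S (mem_of_mem_erase hS)
        · exact hc2.odd S hS
      · intro S hS
        rcases mem_union.1 hS with hS | hS
        · refine (hc.closed S (mem_of_mem_erase hS)).mono (Subset.refl _) ?_
          exact sdiff_subset_sdiff (sdiff_subset_sdiff (Subset.refl _) subset_union_left)
            (Subset.refl _)
        · rw [sep_iff]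
          intro a ha j hj
          obtain ⟨h1, h2⟩ := mem_sdiff.1 hj
          obtain ⟨h3, h4⟩ := mem_sdiff.1 h1
          rw [mem_union, mem_insert, not_or, not_or] at h4
          obtain ⟨h5, h6, h7⟩ := h4
          by_cases hjP : j ∈ P
          · exact sep_iff.1 (hc2.closed S hS) a ha j (mem_sdiff.2 ⟨mem_sdiff.2
              ⟨mem_erase.2 ⟨h6, hjP⟩, h7⟩, h2⟩)
          · exact sep_iff.1 (hc.closed P hP) a (hSP S hS ha) j (mem_sdiff.2 ⟨mem_sdiff.2
              ⟨h3, h5⟩, hjP⟩)
      · intro S hS S' hS' hne'
        rcases mem_union.1 hS with hS | hS <;> rcases mem_union.1 hS' with hS' | hS'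
        · exact hc.disj S (mem_of_mem_erase hS) S' (mem_of_mem_erase hS') hne'
        · exact disjoint_of_subset_right (hSP S' hS')
            (hc.disj S (mem_of_mem_erase hS) P hP (mem_erase.1 hS).1)
        · exact (disjoint_of_subset_right (hSP S hS)
            (hc.disj S' (mem_of_mem_erase hS') P hP (mem_erase.1 hS').1)).symm
        · exact hc2.disj S hS S' hS' hne'
    have hk := key _ _ hcert
    have hA1 : (A ∪ insert i B).card = A.card + B.card + 1 := by
      rw [card_union_of_disjoint, card_insert_of_notMem hiB]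
      · ring
      · refine disjoint_left.2 ?_
        intro j hj hj'
        rcases mem_insert.1 hj' with rfl | h
        · exact hiA hj
        · exact (mem_sdiff.1 (hPW (hBP h))).2 hj
    have hQ1 : (Q.erase P ∪ Q2).card + 1 = Q.card + Q2.card := by
      rw [card_union_of_disjoint]
      · have := card_erase_add_one hP
        omega
      · refine disjoint_left.2 ?_
        intro S hS hS'
        obtain ⟨j, hj⟩ := hc2.nonempty hS'
        exact disjoint_left.1 (hc.disj S (mem_of_mem_erase hS) P hP (mem_erase.1 hS).1) hj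
          (hSP S hS' hj)
    omega

end Pool.Agent.TD5
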