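import Pool.Agent.TD5.Basic

set_option autoImplicit false

namespace Pool.Agent.TD5

open Finset

variable {ι V : Type*} [DecidableEq ι] [DecidableEq V] {e : ι → Finset V}

/-- A family `Q` of disjoint odd sets, each separated from the rest of `X \ B`. -/
structure Cert (e : ι → Finset V) (X B : Finset ι) (Q : Finset (Finset ι)) : Prop where
  sub : B ⊆ X
  mem : ∀ P ∈ Q, P ⊆ X \ B
  odd : ∀ P ∈ Q, Odd P.card
  closed : ∀ P ∈ Q, Sep e P ((X \ B) \ P)
  disj : ∀ P ∈ Q, ∀ P' ∈ Q, P ≠ P' → Disjoint P P'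

theorem tau_of_involution (hne : ∀ i, (e i).Nonempty) (X : Finset ι) (m : ι → ι)
    (h1 : ∀ i ∈ X, m i ∈ X) (h2 : ∀ i ∈ X, m i ≠ i) (h3 : ∀ i ∈ X, m (m i) = i)
    (h4 : ∀ i ∈ X, ¬ Disjoint (e i) (e (m i))) : 2 * tau e X ≤ X.card := by
  classical
  set E : Finset (Finset ι) := X.image (fun i => ({i, m i} : Finset ι)) with hE
  have hX : X = E.biUnion id := by
    ext i
    rw [mem_biUnion]
    constructor
    · intro hi
      exact ⟨{i, m i}, mem_image.2 ⟨i, hi, rfl⟩, by simp⟩
    · rintro ⟨S, hS, hiS⟩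
      obtain ⟨j, hj, rfl⟩ := mem_image.1 hS
      simp only [id, mem_insert, mem_singleton] at hiS
      rcases hiS with rfl | rfl
      · exact hj
      · exact h1 j hj
  have hdisj : ∀ S ∈ E, ∀ S' ∈ E, S ≠ S' → Disjoint (id S) (id S') := by
    intro S hS S' hS' hne'
    obtain ⟨i, hi, rfl⟩ := mem_image.1 hS
    obtain ⟨j, hj, rfl⟩ := mem_image.1 hS'
    refine disjoint_left.2 ?_
    intro k hk hk'
    simp only [id, mem_insert, mem_singleton] at hk hk'
    apply hne'
    rcases hk with rfl | rfl <;> rcases hk' with h | h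
    · rw [h]
    · rw [h, h3 j hj, pair_comm]
    · rw [← h, h3 i hi, pair_comm]
    · have : i = j := by rw [← h3 i hi, h, h3 j hj]
      rw [this]
  have hcard : X.card = 2 * E.card := by
    rw [hX, card_biUnion hdisj]
    have : ∀ S ∈ E, (id S : Finset ι).card = 2 := by
      intro S hS
      obtain ⟨i, hi, rfl⟩ := mem_image.1 hS
      exact card_pair (Ne.symm (h2 i hi))
    rw [sum_congr rfl this, sum_const, smul_eq_mul]
    ring
  have htau : tau e X ≤ E.card := by
    have : tau e X ≤ ∑ S ∈ E, tau e (id S) := by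
      conv_lhs => rw [hX]
      exact tau_biUnion hne E id
    refine this.trans ?_
    have h5 : ∀ S ∈ E, tau e (id S) ≤ 1 := by
      intro S hS
      obtain ⟨i, hi, rfl⟩ := mem_image.1 hS
      obtain ⟨x, hx, hx'⟩ := not_disjoint_iff.1 (h4 i hi)
      apply tau_le_one x
      intro j hj
      simp only [id, mem_insert, mem_singleton] at hj
      rcases hj with rfl | rfl
      · exact hx
      · exact hx'
    simpa using sum_le_card_nsmul _ _ _ h5
  omega

/-- The graph of the intersection relation on `X`. -/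
def gr (e : ι → Finset V) (X : Finset ι) : SimpleGraph X where
  Adj i j := i ≠ j ∧ ¬ Disjoint (e i) (e j)
  symm := ⟨fun _ _ h => ⟨h.1.symm, fun hd => h.2 hd.symm⟩⟩
  loopless := ⟨fun _ h => h.1 rfl⟩

theorem tutte_dich (hne : ∀ i, (e i).Nonempty) (X : Finset ι) :
    2 * tau e X ≤ X.card ∨ ∃ B Q, Cert e X B Q ∧ B.card < Q.card := by
  classical
  by_cases hM : ∃ M : (gr e X).Subgraph, M.IsPerfectMatching
  · left
    obtain ⟨M, hM1, hM2⟩ := hM
    have hex : ∀ i : X, ∃! j, M.Adj i j := fun i => hM1 (hM2 i)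
    choose m hm hm' using hex
    have hmm : ∀ i, m (m i) = i := fun i => (hm' (m i) i (hm i).symm).symm
    set f : ι → ι := fun i => if h : i ∈ X then (m ⟨i, h⟩ : ι) else i with hf
    have hfi : ∀ i (h : i ∈ X), f i = m ⟨i, h⟩ := by
      intro i h
      simp [hf, h]
    apply tau_of_involution hne X f
    · intro i hi
      rw [hfi i hi]
      exact (m ⟨i, hi⟩).2
    · intro i hi h
      rw [hfi i hi] at h
      have := (M.adj_sub (hm ⟨i, hi⟩)).1
      exact this (Subtype.ext h.symm)
    · intro i hi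
      rw [hfi i hi, hfi _ (m ⟨i, hi⟩).2]
      have : (⟨(m ⟨i, hi⟩ : ι), (m ⟨i, hi⟩).2⟩ : X) = m ⟨i, hi⟩ := rfl
      rw [this, hmm]
    · intro i hi
      rw [hfi i hi]
      exact (M.adj_sub (hm ⟨i, hi⟩)).2
  · right
    have h := mt SimpleGraph.tutte.2 hM
    push Not at h
    obtain ⟨u, hu⟩ := h
    unfold SimpleGraph.IsTutteViolator at hu
    set K := (⊤ : (gr e X).Subgraph).deleteVerts u with hK
    have hKv : ∀ x : X, x ∈ K.verts ↔ x ∉ u := by
      intro x
      simp [hK]
    have hKa : ∀ a b : X, a ∉ u → b ∉ u → (gr e X).Adj a b → K.Adj a b := by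
      intro a b ha hb hab
      rw [hK, SimpleGraph.Subgraph.deleteVerts_adj]
      exact ⟨trivial, ha, trivial, hb, hab⟩
    set S : K.coe.ConnectedComponent → Finset ι :=
      fun c => (c.supp.toFinset).image (fun x => (x.1.1 : ι)) with hS
    have hmemS : ∀ c i, i ∈ S c ↔ ∃ x : K.verts, K.coe.connectedComponentMk x = c ∧
        (x.1.1 : ι) = i := by
      intro c i
      simp only [hS, mem_image, Set.mem_toFinset, SimpleGraph.ConnectedComponent.mem_supp_iff]
    have hinjv : Function.Injective (fun x : K.verts => (x.1.1 : ι)) := by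
      intro x y hxy
      exact Subtype.ext (Subtype.ext hxy)
    have hSinj : Function.Injective S := by
      intro c c' h
      obtain ⟨x, hx⟩ := c.nonempty_supp
      rw [SimpleGraph.ConnectedComponent.mem_supp_iff] at hx
      have h1 : (x.1.1 : ι) ∈ S c := (hmemS c _).2 ⟨x, hx, rfl⟩
      rw [h] at h1
      obtain ⟨y, hy, hyx⟩ := (hmemS c' _).1 h1
      rw [← hx, ← hy, hinjv hyx]
    have hScard : ∀ c, (S c).card = c.supp.ncard := by
      intro c
      rw [hS, card_image_of_injective _ hinjv, Set.ncard_eq_toFinset_card']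
    set B : Finset ι := u.toFinset.map (Function.Embedding.subtype _) with hB
    have hBmem : ∀ i (h : i ∈ X), i ∈ B ↔ (⟨i, h⟩ : X) ∈ u := by
      intro i h
      simp only [hB, mem_map, Set.mem_toFinset, Function.Embedding.subtype_apply]
      constructor
      · rintro ⟨a, ha, rfl⟩
        exact ha
      · intro h'
        exact ⟨⟨i, h⟩, h', rfl⟩
    have hBX : B ⊆ X := by
      intro i hi
      simp only [hB, mem_map, Set.mem_toFinset, Function.Embedding.subtype_apply] at hi
      obtain ⟨a, -, rfl⟩ := hi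
      exact a.2
    refine ⟨B, (K.coe.oddComponents.toFinset).image S, ⟨hBX, ?_, ?_, ?_, ?_⟩, ?_⟩
    · intro P hP
      obtain ⟨c, -, rfl⟩ := mem_image.1 hP
      intro i hi
      obtain ⟨x, hx, rfl⟩ := (hmemS c i).1 hi
      rw [mem_sdiff]
      refine ⟨x.1.2, ?_⟩
      rw [hBmem _ x.1.2]
      exact (hKv _).1 x.2
    · intro P hP
      obtain ⟨c, hc, rfl⟩ := mem_image.1 hP
      rw [Set.mem_toFinset] at hc
      rw [hScard]
      exact hc
    · intro P hP
      obtain ⟨c, -, rfl⟩ := mem_image.1 hP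
      rw [sep_iff]
      intro i hi j hj
      obtain ⟨x, hx, rfl⟩ := (hmemS c i).1 hi
      rw [mem_sdiff, mem_sdiff] at hj
      obtain ⟨⟨hjX, hjB⟩, hjS⟩ := hj
      by_contra hd
      rw [hBmem j hjX] at hjB
      have hy : (⟨j, hjX⟩ : X) ∈ K.verts := (hKv _).2 hjB
      apply hjS
      rw [hmemS]
      refine ⟨⟨⟨j, hjX⟩, hy⟩, ?_, rfl⟩
      rw [← hx, eq_comm]
      apply SimpleGraph.ConnectedComponent.sound
      apply SimpleGraph.Adj.reachable
      rw [SimpleGraph.Subgraph.coe_adj]
      refine hKa _ _ ((hKv _).1 x.2) hjB ⟨?_, hd⟩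
      intro hxy
      apply hjS
      rw [hmemS]
      exact ⟨x, hx, congrArg Subtype.val hxy⟩
    · intro P hP P' hP' hne'
      obtain ⟨c, -, rfl⟩ := mem_image.1 hP
      obtain ⟨c', -, rfl⟩ := mem_image.1 hP'
      refine disjoint_left.2 ?_
      intro i hi hi'
      obtain ⟨x, hx, rfl⟩ := (hmemS c i).1 hi
      obtain ⟨y, hy, hyx⟩ := (hmemS c' _).1 hi'
      apply hne'
      rw [← hx, ← hy, hinjv hyx]
    · rw [card_image_of_injective _ hSinj, hB, card_map, ← Set.ncard_eq_toFinset_card',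
        ← Set.ncard_eq_toFinset_card']
      exact hu

end Pool.Agent.TD5
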